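import Mathlib
import Pool.Agent.W845.CP.PL

/-!
# Jump chains: one-step lemmas on top of the construction of `Pool.Agent.W845.CP.PL`
-/

set_option autoImplicit false
set_option linter.unusedSectionVars false

namespace Q288.Jump

open MeasureTheory ProbabilityTheory Pool.Agent.W845.CP
open scoped ENNReal

variable {X : Type} [MeasurableSpace X] [Countable X] [DiscreteMeasurableSpace X]

/-- Conditional expectation of a function of two consecutive states. -/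
theorem lintegral_pair (J : X → Measure X) (hJ : GoodJ J) (x0 : X) (f : X → X → ℝ≥0∞) (n : ℕ) :
    ∫⁻ ω, f (ω n).1 (ω (n + 1)).1 ∂(law J hJ x0) =
      ∫⁻ ω, (J (ω n).1 Set.univ)⁻¹ * ∫⁻ y, f (ω n).1 y ∂(J (ω n).1) ∂(law J hJ x0) := by
  have hf : Measurable (Function.uncurry f) := measurable_of_countable _
  have h := tower J hJ x0 n (fun h z => f (h ⟨n, by simp⟩).1 z.1) (by
    have : (Function.uncurry fun (h : Π _ : Finset.Iic n, X × ℝ) (z : X × ℝ) =>
        f (h ⟨n, by simp⟩).1 z.1) = fun q => Function.uncurry f ((q.1 ⟨n, by simp⟩).1, q.2.1) := by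
      ext q; rfl
    rw [this]
    exact hf.comp (by fun_prop))
  have e1 : ∫⁻ ω, f (ω n).1 (ω (n + 1)).1 ∂(law J hJ x0) =
      ∫⁻ ω, (fun (h : Π _ : Finset.Iic n, X × ℝ) (z : X × ℝ) => f (h ⟨n, by simp⟩).1 z.1)
        (Preorder.frestrictLe (π := fun _ => X × ℝ) n ω) (ω (n + 1)) ∂(law J hJ x0) := rfl
  rw [e1, h]
  refine lintegral_congr fun ω => ?_
  have e2 : ∀ z : X × ℝ, (fun (h : Π _ : Finset.Iic n, X × ℝ) (z : X × ℝ) =>
      f (h ⟨n, by simp⟩).1 z.1) (Preorder.frestrictLe (π := fun _ => X × ℝ) n ω) z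
        = f (ω n).1 z.1 := fun z => rfl
  simp only [e2]
  rw [lintegral_stepM J hJ _ (fun z => f (ω n).1 z.1)
    ((measurable_of_countable (f (ω n).1)).comp measurable_fst)]
  congr 1
  refine lintegral_congr fun y => ?_
  haveI := isProb_exp J hJ (ω n).1
  simp

theorem lintegral_succ (J : X → Measure X) (hJ : GoodJ J) (x0 : X) (f : X → ℝ≥0∞) (n : ℕ) :
    ∫⁻ ω, f (ω (n + 1)).1 ∂(law J hJ x0) =
      ∫⁻ ω, (J (ω n).1 Set.univ)⁻¹ * ∫⁻ y, f y ∂(J (ω n).1) ∂(law J hJ x0) :=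
  lintegral_pair J hJ x0 (fun _ y => f y) n

theorem lintegral_zero (J : X → Measure X) (hJ : GoodJ J) (x0 : X) (f : X → ℝ≥0∞) :
    ∫⁻ ω, f (ω 0).1 ∂(law J hJ x0) = f x0 := by
  have h := law_zero J hJ x0
  have hm : Measurable fun z : X × ℝ => f z.1 := (measurable_of_countable f).comp measurable_fst
  have e : ∫⁻ ω, f (ω 0).1 ∂(law J hJ x0) =
      ∫⁻ z, f z.1 ∂((law J hJ x0).map (fun ω => ω 0)) := by
    rw [lintegral_map hm (by fun_prop)]
  rw [e, h, lintegral_dirac' _ hm]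

/-- Relations between consecutive states. -/
theorem ae_rel (J : X → Measure X) (hJ : GoodJ J) (x0 : X) (Rel : X → X → Prop)
    (h : ∀ x, ∀ᵐ y ∂(J x), Rel x y) :
    ∀ᵐ ω ∂(law J hJ x0), ∀ n, Rel (ω n).1 (ω (n + 1)).1 := by
  classical
  rw [ae_all_iff]
  intro n
  have h1 := lintegral_pair J hJ x0 (fun x y => if Rel x y then 0 else 1) n
  have h2 : ∀ x, ∫⁻ y, (if Rel x y then (0 : ℝ≥0∞) else 1) ∂(J x) = 0 := by
    intro x
    rw [lintegral_eq_zero_iff (measurable_of_countable _)]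
    filter_upwards [h x] with y hy
    simp [hy]
  simp only [h2, mul_zero, lintegral_const, zero_mul] at h1
  rw [lintegral_eq_zero_iff] at h1
  · filter_upwards [h1] with ω hω
    by_contra hc
    simp [hc] at hω
  · exact (measurable_of_countable (fun q : X × X => if Rel q.1 q.2 then (0 : ℝ≥0∞) else 1)).comp
      (by fun_prop : Measurable fun ω : ℕ → X × ℝ => ((ω n).1, (ω (n + 1)).1))

theorem ae_start (J : X → Measure X) (hJ : GoodJ J) (x0 : X) :
    ∀ᵐ ω ∂(law J hJ x0), (ω 0).1 = x0 := by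
  classical
  have h1 := lintegral_zero J hJ x0 (fun x => if x = x0 then 0 else 1)
  simp only [if_true] at h1
  rw [lintegral_eq_zero_iff] at h1
  · filter_upwards [h1] with ω hω
    by_contra hc
    simp [hc] at hω
  · exact (measurable_of_countable (fun q : X => if q = x0 then (0 : ℝ≥0∞) else 1)).comp
      (by fun_prop : Measurable fun ω : ℕ → X × ℝ => (ω 0).1)

/-- Time-dependent invariants. -/
theorem ae_inv (J : X → Measure X) (hJ : GoodJ J) (x0 : X) (Inv : ℕ → X → Prop) (h0 : Inv 0 x0)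
    (hs : ∀ n x, Inv n x → ∀ᵐ y ∂(J x), Inv (n + 1) y) :
    ∀ᵐ ω ∂(law J hJ x0), ∀ n, Inv n (ω n).1 := by
  have h1 := ae_rel J hJ x0 (fun x y => ∀ n, Inv n x → Inv (n + 1) y) (by
    intro x
    rw [ae_all_iff]
    intro n
    by_cases hx : Inv n x
    · filter_upwards [hs n x hx] with y hy _ using hy
    · exact Filter.Eventually.of_forall fun y hc => absurd hc hx)
  filter_upwards [h1, ae_start J hJ x0] with ω hω h0' n
  induction n with
  | zero => rw [h0']; exact h0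
  | succ n ih => exact hω n n ih

/-- Supermartingale bound. -/
theorem lintegral_succ_le (J : X → Measure X) (hJ : GoodJ J) (x0 : X) (Inv : ℕ → X → Prop)
    (h0 : Inv 0 x0) (hs : ∀ n x, Inv n x → ∀ᵐ y ∂(J x), Inv (n + 1) y) (f g : X → ℝ≥0∞)
    (hf : ∀ n x, Inv n x → ∫⁻ y, f y ∂(J x) + J x Set.univ * g x ≤ J x Set.univ * f x) (n : ℕ) :
    ∫⁻ ω, f (ω (n + 1)).1 ∂(law J hJ x0) + ∫⁻ ω, g (ω n).1 ∂(law J hJ x0) ≤
      ∫⁻ ω, f (ω n).1 ∂(law J hJ x0) := by
  rw [lintegral_succ J hJ x0 f n, ← lintegral_add_right]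
  · refine lintegral_mono_ae ?_
    filter_upwards [ae_inv J hJ x0 Inv h0 hs] with ω hω
    have h1 := hf n _ (hω n)
    have hx := hJ (ω n).1
    calc (J (ω n).1 Set.univ)⁻¹ * ∫⁻ y, f y ∂(J (ω n).1) + g (ω n).1
        = (J (ω n).1 Set.univ)⁻¹ * (∫⁻ y, f y ∂(J (ω n).1) + J (ω n).1 Set.univ * g (ω n).1) := by
          rw [mul_add, ← mul_assoc, ENNReal.inv_mul_cancel hx.1 hx.2, one_mul]
      _ ≤ (J (ω n).1 Set.univ)⁻¹ * (J (ω n).1 Set.univ * f (ω n).1) := by gcongr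
      _ = f (ω n).1 := by rw [← mul_assoc, ENNReal.inv_mul_cancel hx.1 hx.2, one_mul]
  · exact (measurable_of_countable g).comp (by fun_prop : Measurable fun ω : ℕ → X × ℝ => (ω n).1)

theorem lintegral_le_start (J : X → Measure X) (hJ : GoodJ J) (x0 : X) (Inv : ℕ → X → Prop)
    (h0 : Inv 0 x0) (hs : ∀ n x, Inv n x → ∀ᵐ y ∂(J x), Inv (n + 1) y) (f : X → ℝ≥0∞)
    (hf : ∀ n x, Inv n x → ∫⁻ y, f y ∂(J x) ≤ J x Set.univ * f x) (n : ℕ) :
    ∫⁻ ω, f (ω n).1 ∂(law J hJ x0) ≤ f x0 := by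
  induction n with
  | zero => rw [lintegral_zero]
  | succ n ih =>
    refine le_trans ?_ ih
    have := lintegral_succ_le J hJ x0 Inv h0 hs f (fun _ => 0) (by simpa using hf) n
    simpa using this

theorem start_le_lintegral (J : X → Measure X) (hJ : GoodJ J) (x0 : X) (Inv : ℕ → X → Prop)
    (h0 : Inv 0 x0) (hs : ∀ n x, Inv n x → ∀ᵐ y ∂(J x), Inv (n + 1) y) (f : X → ℝ≥0∞)
    (hf : ∀ n x, Inv n x → J x Set.univ * f x ≤ ∫⁻ y, f y ∂(J x)) (n : ℕ) :
    f x0 ≤ ∫⁻ ω, f (ω n).1 ∂(law J hJ x0) := by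
  induction n with
  | zero => rw [lintegral_zero]
  | succ n ih =>
    refine le_trans ih ?_
    rw [lintegral_succ J hJ x0 f n]
    refine lintegral_mono_ae ?_
    filter_upwards [ae_inv J hJ x0 Inv h0 hs] with ω hω
    have h1 := hf n _ (hω n)
    have hx := hJ (ω n).1
    calc f (ω n).1 = (J (ω n).1 Set.univ)⁻¹ * (J (ω n).1 Set.univ * f (ω n).1) := by
          rw [← mul_assoc, ENNReal.inv_mul_cancel hx.1 hx.2, one_mul]
      _ ≤ _ := by gcongr

/-- Summed supermartingale bound. -/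
theorem sum_lintegral_le (J : X → Measure X) (hJ : GoodJ J) (x0 : X) (Inv : ℕ → X → Prop)
    (h0 : Inv 0 x0) (hs : ∀ n x, Inv n x → ∀ᵐ y ∂(J x), Inv (n + 1) y) (f g : X → ℝ≥0∞)
    (hf : ∀ n x, Inv n x → ∫⁻ y, f y ∂(J x) + J x Set.univ * g x ≤ J x Set.univ * f x) (n : ℕ) :
    ∫⁻ ω, f (ω n).1 ∂(law J hJ x0) + ∑ k ∈ Finset.range n, ∫⁻ ω, g (ω k).1 ∂(law J hJ x0) ≤
      f x0 := by
  induction n with
  | zero => simp [lintegral_zero]
  | succ n ih =>
    rw [Finset.sum_range_succ]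
    calc _ = (∫⁻ ω, f (ω (n + 1)).1 ∂(law J hJ x0) + ∫⁻ ω, g (ω n).1 ∂(law J hJ x0)) +
          ∑ k ∈ Finset.range n, ∫⁻ ω, g (ω k).1 ∂(law J hJ x0) := by ring
      _ ≤ ∫⁻ ω, f (ω n).1 ∂(law J hJ x0) +
          ∑ k ∈ Finset.range n, ∫⁻ ω, g (ω k).1 ∂(law J hJ x0) := by
          gcongr
          exact lintegral_succ_le J hJ x0 Inv h0 hs f g hf n
      _ ≤ f x0 := ih

end Q288.Jump
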