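import Mathlib
import Pool.Agent.Q288.CTMC.Jump

/-!
# Non-explosion of jump processes with at most linearly growing rates
-/

set_option autoImplicit false
set_option linter.unusedSectionVars false

namespace Q288.Jump

open MeasureTheory ProbabilityTheory Pool.Agent.W845.CP Filter Topology
open scoped ENNReal

variable {X : Type} [MeasurableSpace X] [Countable X] [DiscreteMeasurableSpace X]

lemma lintegral_exp_expMeasure (R : ℝ) (hR : 0 < R) :
    ∫⁻ s, ENNReal.ofReal (Real.exp (-s)) ∂(expMeasure R) = ENNReal.ofReal (R / (R + 1)) := by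
  have h1 : expMeasure R = volume.withDensity (exponentialPDF R) := rfl
  rw [h1, lintegral_withDensity_eq_lintegral_mul]
  · have h2 : ∀ s : ℝ, (exponentialPDF R * fun s => ENNReal.ofReal (Real.exp (-s))) s =
        ENNReal.ofReal (R / (R + 1)) * exponentialPDF (R + 1) s := by
      intro s
      rw [Pi.mul_apply, exponentialPDF_eq, exponentialPDF_eq]
      by_cases hs : 0 ≤ s
      · rw [if_pos hs, if_pos hs, ← ENNReal.ofReal_mul (by positivity),
          ← ENNReal.ofReal_mul (by positivity)]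
        congr 1
        have h3 : Real.exp (-(R * s)) * Real.exp (-s) = Real.exp (-((R + 1) * s)) := by
          rw [← Real.exp_add]; congr 1; ring
        calc R * Real.exp (-(R * s)) * Real.exp (-s)
            = R * (Real.exp (-(R * s)) * Real.exp (-s)) := by ring
          _ = R / (R + 1) * ((R + 1) * Real.exp (-((R + 1) * s))) := by
            rw [h3]; field_simp
      · rw [if_neg hs, if_neg hs]; simp
    rw [lintegral_congr h2, lintegral_const_mul' _ _ ENNReal.ofReal_ne_top,
      lintegral_exponentialPDF_eq_one (by linarith), mul_one]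
  · exact (measurable_exponentialPDFReal R).ennreal_ofReal
  · fun_prop

lemma measurableSet_neg : MeasurableSet {s : ℝ | s < 0} :=
  measurableSet_lt measurable_id measurable_const

lemma expMeasure_neg (R : ℝ) : expMeasure R {s : ℝ | s < 0} = 0 := by
  have h1 : expMeasure R = volume.withDensity (exponentialPDF R) := rfl
  rw [h1, withDensity_apply _ measurableSet_neg]
  rw [setLIntegral_congr_fun (g := fun _ => 0) measurableSet_neg
    (fun s hs => exponentialPDF_of_neg hs)]
  simp

/-- The jump times are nondecreasing and start at `0`. -/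
theorem ae_times (J : X → Measure X) (hJ : GoodJ J) (x0 : X) :
    ∀ᵐ ω ∂(law J hJ x0), (ω 0).2 = 0 ∧ ∀ n, (ω n).2 ≤ (ω (n + 1)).2 := by
  classical
  have h0 : ∀ᵐ ω ∂(law J hJ x0), (ω 0).2 = 0 := by
    have h := law_zero J hJ x0
    have hs : MeasurableSet {z : X × ℝ | z.2 ≠ 0} :=
      (measurable_snd (measurableSet_singleton (0 : ℝ))).compl
    rw [ae_iff]
    have e : {ω : ℕ → X × ℝ | ¬ (ω 0).2 = 0} = (fun ω => ω 0) ⁻¹' {z : X × ℝ | z.2 ≠ 0} := rfl
    rw [e, ← Measure.map_apply (by fun_prop) hs, h, Measure.dirac_apply' _ hs]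
    simp
  have h1 : ∀ᵐ ω ∂(law J hJ x0), ∀ n, (ω n).2 ≤ (ω (n + 1)).2 := by
    rw [ae_all_iff]
    intro n
    have ht := tower J hJ x0 n (fun h z => if z.2 < (h ⟨n, by simp⟩).2 then 1 else 0) (by
      have : (Function.uncurry fun (h : Π _ : Finset.Iic n, X × ℝ) (z : X × ℝ) =>
          if z.2 < (h ⟨n, by simp⟩).2 then (1 : ℝ≥0∞) else 0) =
          fun q => if q.2.2 < (q.1 ⟨n, by simp⟩).2 then (1 : ℝ≥0∞) else 0 := by
        ext q; rfl
      rw [this]
      exact Measurable.ite (measurableSet_lt (by fun_prop) (by fun_prop)) measurable_const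
        measurable_const)
    have hr : ∀ ω : ℕ → X × ℝ, ∫⁻ z, (fun (h : Π _ : Finset.Iic n, X × ℝ) (z : X × ℝ) =>
        if z.2 < (h ⟨n, by simp⟩).2 then (1 : ℝ≥0∞) else 0)
        (Preorder.frestrictLe (π := fun _ => X × ℝ) n ω) z ∂(stepM J (ω n)) = 0 := by
      intro ω
      have e2 : ∀ z : X × ℝ, (fun (h : Π _ : Finset.Iic n, X × ℝ) (z : X × ℝ) =>
        if z.2 < (h ⟨n, by simp⟩).2 then (1 : ℝ≥0∞) else 0)
        (Preorder.frestrictLe (π := fun _ => X × ℝ) n ω) z =
          if z.2 < (ω n).2 then (1 : ℝ≥0∞) else 0 := fun z => rfl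
      simp only [e2]
      rw [lintegral_stepM J hJ _ (fun z => if z.2 < (ω n).2 then (1 : ℝ≥0∞) else 0)
        (Measurable.ite (measurableSet_lt (by fun_prop) (by fun_prop)) measurable_const
        measurable_const)]
      have h3 : ∫⁻ s, (if (ω n).2 + s < (ω n).2 then (1 : ℝ≥0∞) else 0)
          ∂(expMeasure (J (ω n).1 Set.univ).toReal) = 0 := by
        have e3 : (fun s : ℝ => (if (ω n).2 + s < (ω n).2 then (1 : ℝ≥0∞) else 0)) =
            Set.indicator {s : ℝ | s < 0} (fun _ => 1) := by
          ext s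
          simp only [Set.indicator, Set.mem_ofPred_eq]
          by_cases hs : s < 0
          · rw [if_pos hs, if_pos (by linarith)]
          · rw [if_neg hs, if_neg (by linarith)]
        rw [e3, lintegral_indicator measurableSet_neg]
        simp [expMeasure_neg]
      simp only [h3, lintegral_const, zero_mul, mul_zero]
    simp only [hr, lintegral_const, zero_mul] at ht
    rw [lintegral_eq_zero_iff] at ht
    · filter_upwards [ht] with ω hω
      by_contra hc
      have hc' : (ω (n + 1)).2 < (ω n).2 := not_le.1 hc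
      have : (if (ω (n + 1)).2 < (ω n).2 then (1 : ℝ≥0∞) else 0) = 0 := hω
      rw [if_pos hc'] at this
      exact one_ne_zero this
    · exact Measurable.ite (measurableSet_lt (by fun_prop)
        (by
          show Measurable fun ω : ℕ → X × ℝ => (ω n).2
          fun_prop)) measurable_const measurable_const
  filter_upwards [h0, h1] with ω a b using ⟨a, b⟩

/-- Laplace transform of the jump times. -/
theorem lintegral_exp_succ (J : X → Measure X) (hJ : GoodJ J) (x0 : X) (n : ℕ) (r : ℝ)
    (hr0 : 0 < r) (hr : ∀ᵐ ω ∂(law J hJ x0), (J (ω n).1 Set.univ).toReal ≤ r) :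
    ∫⁻ ω, ENNReal.ofReal (Real.exp (-(ω (n + 1)).2)) ∂(law J hJ x0) ≤
      ENNReal.ofReal (r / (r + 1)) * ∫⁻ ω, ENNReal.ofReal (Real.exp (-(ω n).2)) ∂(law J hJ x0) := by
  have ht := tower J hJ x0 n (fun _ z => ENNReal.ofReal (Real.exp (-z.2))) (by
    have : (Function.uncurry fun (_ : Π _ : Finset.Iic n, X × ℝ) (z : X × ℝ) =>
        ENNReal.ofReal (Real.exp (-z.2))) = fun q => ENNReal.ofReal (Real.exp (-q.2.2)) := by
      ext q; rfl
    rw [this]
    fun_prop)
  rw [ht, ← lintegral_const_mul' _ _ ENNReal.ofReal_ne_top]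
  refine lintegral_mono_ae ?_
  filter_upwards [hr] with ω hω
  rw [lintegral_stepM J hJ _ (fun z => ENNReal.ofReal (Real.exp (-z.2))) (by fun_prop)]
  have hx := hJ (ω n).1
  have hpos : 0 < (J (ω n).1 Set.univ).toReal := ENNReal.toReal_pos hx.1 hx.2
  have h3 : ∫⁻ s, ENNReal.ofReal (Real.exp (-((ω n).2 + s)))
      ∂(expMeasure (J (ω n).1 Set.univ).toReal) = ENNReal.ofReal (Real.exp (-(ω n).2)) *
        ENNReal.ofReal ((J (ω n).1 Set.univ).toReal / ((J (ω n).1 Set.univ).toReal + 1)) := by
    rw [← lintegral_exp_expMeasure _ hpos, ← lintegral_const_mul' _ _ ENNReal.ofReal_ne_top]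
    refine lintegral_congr fun s => ?_
    rw [← ENNReal.ofReal_mul (Real.exp_nonneg _), ← Real.exp_add]
    congr 2; ring
  simp only [h3, lintegral_const]
  rw [mul_comm _ (J (ω n).1 Set.univ), ← mul_assoc, ENNReal.inv_mul_cancel hx.1 hx.2, one_mul,
    mul_comm]
  refine mul_le_mul' (ENNReal.ofReal_le_ofReal ?_) le_rfl
  rw [div_le_div_iff₀ (by linarith) (by linarith)]
  nlinarith

theorem nonexplosion (J : X → Measure X) (hJ : GoodJ J) (x0 : X) (c : ℝ) (hc : 0 < c)
    (hr : ∀ᵐ ω ∂(law J hJ x0), ∀ n : ℕ, (J (ω n).1 Set.univ).toReal ≤ c * (n + 1)) :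
    ∀ᵐ ω ∂(law J hJ x0), Tendsto (fun n => (ω n).2) atTop atTop := by
  set E : ℕ → ℝ≥0∞ := fun n => ∫⁻ ω, ENNReal.ofReal (Real.exp (-(ω n).2)) ∂(law J hJ x0) with hE
  have hstep : ∀ n : ℕ, E (n + 1) ≤ ENNReal.ofReal (c * (n + 1) / (c * (n + 1) + 1)) * E n := by
    intro n
    refine lintegral_exp_succ J hJ x0 n (c * (n + 1)) (by positivity) ?_
    filter_upwards [hr] with ω hω using hω n
  have hE0 : E 0 ≤ 1 := by
    have : ∀ᵐ ω ∂(law J hJ x0), ENNReal.ofReal (Real.exp (-(ω 0).2)) ≤ 1 := by
      filter_upwards [ae_times J hJ x0] with ω hω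
      rw [hω.1]; simp
    calc E 0 ≤ ∫⁻ _, 1 ∂(law J hJ x0) := lintegral_mono_ae this
      _ = 1 := by simp
  have hbd : ∀ n : ℕ, E n ≤ ENNReal.ofReal
      (Real.exp (-∑ k ∈ Finset.range n, (1 / (c * (k + 1) + 1)))) := by
    intro n
    induction n with
    | zero => simpa using hE0
    | succ n ih =>
      have hcn : 0 < c * ((n : ℝ) + 1) := by positivity
      calc E (n + 1) ≤ ENNReal.ofReal (c * (n + 1) / (c * (n + 1) + 1)) * E n := hstep n
        _ ≤ ENNReal.ofReal (Real.exp (-(1 / (c * (n + 1) + 1)))) *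
            ENNReal.ofReal (Real.exp (-∑ k ∈ Finset.range n, (1 / (c * (k + 1) + 1)))) := by
            gcongr
            have h1 := Real.add_one_le_exp (-(1 / (c * ((n : ℝ) + 1) + 1)))
            have h2 : c * ((n : ℝ) + 1) / (c * (n + 1) + 1) = -(1 / (c * (n + 1) + 1)) + 1 := by
              field_simp
              ring
            rw [h2]; exact h1
        _ = _ := by
            rw [← ENNReal.ofReal_mul (Real.exp_nonneg _), ← Real.exp_add, Finset.sum_range_succ]
            congr 2; ring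
  have hsum : Tendsto (fun n => ∑ k ∈ Finset.range n, (1 / (c * ((k : ℝ) + 1) + 1))) atTop atTop := by
    have h1 : Tendsto (fun n => ∑ k ∈ Finset.range n, (1 / ((k : ℝ) + 1))) atTop atTop :=
      Real.tendsto_sum_range_one_div_nat_succ_atTop
    have h2 : Tendsto (fun n => (1 / (c + 1)) * ∑ k ∈ Finset.range n, (1 / ((k : ℝ) + 1)))
        atTop atTop := h1.const_mul_atTop (by positivity)
    refine tendsto_atTop_mono (fun n => ?_) h2
    rw [Finset.mul_sum]
    refine Finset.sum_le_sum fun k _ => ?_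
    rw [div_mul_div_comm, one_mul]
    apply one_div_le_one_div_of_le (by positivity)
    nlinarith [(Nat.cast_nonneg k : (0 : ℝ) ≤ k)]
  have hlim : Tendsto E atTop (𝓝 0) := by
    refine tendsto_of_tendsto_of_tendsto_of_le_of_le tendsto_const_nhds ?_ (fun n => zero_le)
      hbd
    have h1 : Tendsto (fun n => Real.exp (-∑ k ∈ Finset.range n, (1 / (c * ((k : ℝ) + 1) + 1))))
        atTop (𝓝 0) := Real.tendsto_exp_neg_atTop_nhds_zero.comp hsum
    have h2 := ENNReal.tendsto_ofReal h1
    rwa [ENNReal.ofReal_zero] at h2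
  have hF : ∫⁻ ω, liminf (fun n => ENNReal.ofReal (Real.exp (-(ω n).2))) atTop ∂(law J hJ x0) = 0 := by
    refine le_antisymm ?_ zero_le
    calc _ ≤ liminf E atTop := lintegral_liminf_le (fun n => by fun_prop)
      _ = 0 := hlim.liminf_eq
  rw [lintegral_eq_zero_iff (Measurable.liminf fun n => by fun_prop)] at hF
  filter_upwards [hF, ae_times J hJ x0] with ω hω htm
  have hmono : Monotone (fun n => (ω n).2) := monotone_nat_of_le_succ htm.2
  rw [tendsto_atTop_atTop]
  by_contra hcon
  push Not at hcon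
  obtain ⟨b, hb⟩ := hcon
  have hall : ∀ n, (ω n).2 ≤ b := by
    intro n
    obtain ⟨m, hm, hlt⟩ := hb n
    exact (hmono hm).trans hlt.le
  have h1 : ENNReal.ofReal (Real.exp (-b)) ≤
      liminf (fun n => ENNReal.ofReal (Real.exp (-(ω n).2))) atTop := by
    refine le_liminf_of_le (by isBoundedDefault) ?_
    refine Filter.Eventually.of_forall fun n => ?_
    apply ENNReal.ofReal_le_ofReal
    exact Real.exp_le_exp.2 (by linarith [hall n])
  have h2 : liminf (fun n => ENNReal.ofReal (Real.exp (-(ω n).2))) atTop = 0 := hω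
  rw [h2] at h1
  have h3 : 0 < ENNReal.ofReal (Real.exp (-b)) := ENNReal.ofReal_pos.2 (Real.exp_pos _)
  exact absurd h1 (not_le.2 h3)

end Q288.Jump
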