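import Mathlib

/-! # Finite-state continuous-time Markov chains

`gen r` is the generator of the chain with jump rates `r x y`, and `exp (t • gen r)` its transition
matrices. -/

open Filter Topology Matrix

set_option linter.unusedSectionVars false

namespace Pool.Agent.Q288.CTMC

variable {S : Type*} [Fintype S] [DecidableEq S]

/-- The generator of the continuous-time Markov chain with jump rates `r x y`. -/
def gen (r : S → S → ℝ) : Matrix S S ℝ := fun x y => r x y - if x = y then ∑ z, r x z else 0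

theorem gen_mulVec (r : S → S → ℝ) (h : S → ℝ) (x : S) :
    (gen r *ᵥ h) x = ∑ y, r x y * (h y - h x) := by
  simp only [Matrix.mulVec, dotProduct, gen, sub_mul, Finset.sum_sub_distrib, ite_mul, zero_mul,
    Finset.sum_ite_eq, Finset.mem_univ, if_true, mul_sub, Finset.sum_mul]

theorem exp_hasSum (A : Matrix S S ℝ) :
    HasSum (fun n : ℕ => ((n.factorial : ℝ)⁻¹) • A ^ n) (NormedSpace.exp A) :=
  open scoped Matrix.Norms.Operator in NormedSpace.exp_series_hasSum_exp' (𝕂 := ℝ) A

theorem apply_hasSum {f : ℕ → Matrix S S ℝ} {B : Matrix S S ℝ} (h : HasSum f B) (x y : S) :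
    HasSum (fun n => f n x y) (B x y) := by
  have h1 : HasSum (fun n => f n x) (B x) := Pi.hasSum.mp h x
  exact Pi.hasSum.mp h1 y

theorem pow_nonneg_entry {A : Matrix S S ℝ} (hA : ∀ x y, 0 ≤ A x y) (n : ℕ) :
    ∀ x y, 0 ≤ (A ^ n) x y := by
  induction n with
  | zero => intro x y; simp only [pow_zero, Matrix.one_apply]; split_ifs <;> norm_num
  | succ n ih =>
    intro x y
    rw [pow_succ, Matrix.mul_apply]
    exact Finset.sum_nonneg fun z _ => mul_nonneg (ih x z) (hA z y)

theorem exp_nonneg_of_nonneg {A : Matrix S S ℝ} (hA : ∀ x y, 0 ≤ A x y) (x y : S) :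
    0 ≤ NormedSpace.exp A x y := by
  refine (apply_hasSum (exp_hasSum A) x y).nonneg fun n => ?_
  simp only [Matrix.smul_apply, smul_eq_mul]
  exact mul_nonneg (by positivity) (pow_nonneg_entry hA n x y)

/-- Matrices with nonnegative off-diagonal entries have exponentials with nonnegative entries. -/
theorem exp_nonneg_of_offDiag {A : Matrix S S ℝ} (hA : ∀ x y, x ≠ y → 0 ≤ A x y) (x y : S) :
    0 ≤ NormedSpace.exp A x y := by
  set c : ℝ := ∑ z, |A z z| with hc
  have hc' : ∀ z, |A z z| ≤ c := fun z =>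
    Finset.single_le_sum (f := fun z => |A z z|) (fun z _ => abs_nonneg _) (Finset.mem_univ z)
  have hB : ∀ x y, 0 ≤ (A + c • (1 : Matrix S S ℝ)) x y := by
    intro x y
    simp only [Matrix.add_apply, Matrix.smul_apply, Matrix.one_apply, smul_eq_mul]
    by_cases h : x = y
    · subst h
      rw [if_pos rfl, mul_one]
      linarith [neg_abs_le (A x x), hc' x]
    · rw [if_neg h, mul_zero, add_zero]
      exact hA x y h
  have hcomm : Commute (A + c • (1 : Matrix S S ℝ)) ((-c) • (1 : Matrix S S ℝ)) := by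
    apply Commute.smul_right
    exact Commute.one_right _
  have e1 : A = (A + c • (1 : Matrix S S ℝ)) + (-c) • (1 : Matrix S S ℝ) := by
    rw [add_assoc, ← add_smul]
    simp
  have e2 : NormedSpace.exp ((-c) • (1 : Matrix S S ℝ)) = Real.exp (-c) • (1 : Matrix S S ℝ) := by
    have h1 : (-c) • (1 : Matrix S S ℝ) = Matrix.diagonal fun _ => -c := by
      ext i j
      simp [Matrix.diagonal_apply, Matrix.one_apply]
    have h2 : Real.exp (-c) • (1 : Matrix S S ℝ) = Matrix.diagonal fun _ => Real.exp (-c) := by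
      ext i j
      simp [Matrix.diagonal_apply, Matrix.one_apply]
    rw [h1, h2, Matrix.exp_diagonal]
    congr 1
    funext i
    rw [Real.exp_eq_exp_ℝ, Pi.coe_exp]
  have e3 := Matrix.exp_add_of_commute _ _ hcomm
  rw [← e1] at e3
  rw [e3, e2, Matrix.mul_smul, mul_one, Matrix.smul_apply, smul_eq_mul]
  exact mul_nonneg (Real.exp_pos _).le (exp_nonneg_of_nonneg hB x y)

theorem exp_gen_nonneg {r : S → S → ℝ} (hr : ∀ x y, 0 ≤ r x y) {t : ℝ} (ht : 0 ≤ t) (x y : S) :
    0 ≤ NormedSpace.exp (t • gen r) x y := by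
  apply exp_nonneg_of_offDiag
  intro x y hxy
  simp only [Matrix.smul_apply, smul_eq_mul, gen, if_neg hxy, sub_zero]
  exact mul_nonneg ht (hr x y)

theorem hasDerivAt_exp' (A : Matrix S S ℝ) (t : ℝ) :
    HasDerivAt (fun u : ℝ => NormedSpace.exp (u • A)) (NormedSpace.exp (t • A) * A) t :=
  open scoped Matrix.Norms.Operator in hasDerivAt_exp_smul_const A t

theorem hasDerivAt_exp (A : Matrix S S ℝ) (t : ℝ) (x y : S) :
    HasDerivAt (fun u : ℝ => NormedSpace.exp (u • A) x y) ((NormedSpace.exp (t • A) * A) x y) t := by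
  have h1 : HasDerivAt (fun u : ℝ => NormedSpace.exp (u • A) x) ((NormedSpace.exp (t • A) * A) x) t
    := hasDerivAt_pi.mp (hasDerivAt_exp' A t) x
  exact hasDerivAt_pi.mp h1 y

theorem hasDerivAt_mulVec {F : ℝ → Matrix S S ℝ} {F' : Matrix S S ℝ} {t : ℝ}
    (h1 : ∀ x y, HasDerivAt (fun u => F u x y) (F' x y) t) {g : ℝ → S → ℝ} {g' : S → ℝ}
    (h2 : ∀ y, HasDerivAt (fun u => g u y) (g' y) t) (x : S) :
    HasDerivAt (fun u => (F u *ᵥ g u) x) ((F' *ᵥ g t) x + (F t *ᵥ g') x) t := by
  have h3 : HasDerivAt (fun u => ∑ y, F u x y * g u y) (∑ y, (F' x y * g t y + F t x y * g' y)) t :=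
    HasDerivAt.fun_sum fun y _ => (h1 x y).mul (h2 y)
  simpa only [Matrix.mulVec, dotProduct, Finset.sum_add_distrib] using h3

theorem mulVec_mono {B : Matrix S S ℝ} (hB : ∀ x y, 0 ≤ B x y) {f g : S → ℝ} (hfg : ∀ x, f x ≤ g x)
    (x : S) : (B *ᵥ f) x ≤ (B *ᵥ g) x := by
  simp only [Matrix.mulVec, dotProduct]
  exact Finset.sum_le_sum fun y _ => mul_le_mul_of_nonneg_left (hfg y) (hB x y)

/-- Time-dependent comparison: if `∂_τ g ≤ L g` on `[0, t]` then `g t ≤ exp (t L) g 0`. -/
theorem le_exp_of_subsolution {r : S → S → ℝ} (hr : ∀ x y, 0 ≤ r x y) {t : ℝ} (ht : 0 ≤ t)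
    {g g' : ℝ → S → ℝ}
    (hg : ∀ τ ∈ Set.Icc 0 t, ∀ y, HasDerivAt (fun u => g u y) (g' τ y) τ)
    (hsub : ∀ τ ∈ Set.Icc 0 t, ∀ x, g' τ x ≤ (gen r *ᵥ g τ) x) (x : S) :
    g t x ≤ (NormedSpace.exp (t • gen r) *ᵥ g 0) x := by
  set φ : ℝ → ℝ := fun u => (NormedSpace.exp (u • gen r) *ᵥ g (t - u)) x with hφ
  have hd : ∀ u ∈ Set.Icc 0 t, HasDerivAt φ
      (((NormedSpace.exp (u • gen r) * gen r) *ᵥ g (t - u)) x +
        (NormedSpace.exp (u • gen r) *ᵥ (-(g' (t - u)))) x) u := by
    intro u hu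
    apply hasDerivAt_mulVec (hasDerivAt_exp (gen r) u)
    intro y
    have h1 : HasDerivAt (fun u : ℝ => t - u) (-1) u := by
      simpa using (hasDerivAt_id u).const_sub t
    have h2 := HasDerivAt.comp u (hg (t - u) ⟨by linarith [hu.2], by linarith [hu.1]⟩ y) h1
    rw [mul_neg_one] at h2
    exact h2
  have hmono : MonotoneOn φ (Set.Icc 0 t) := by
    apply monotoneOn_of_deriv_nonneg (convex_Icc 0 t)
    · exact fun u hu => (hd u hu).continuousAt.continuousWithinAt
    · intro u hu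
      rw [interior_Icc] at hu
      exact (hd u ⟨hu.1.le, hu.2.le⟩).differentiableAt.differentiableWithinAt
    · intro u hu
      rw [interior_Icc] at hu
      rw [(hd u ⟨hu.1.le, hu.2.le⟩).deriv]
      rw [← Matrix.mulVec_mulVec, Matrix.mulVec_neg, Pi.neg_apply, ← sub_eq_add_neg, sub_nonneg]
      apply mulVec_mono (fun x y => exp_gen_nonneg hr hu.1.le x y)
      intro y
      exact hsub (t - u) ⟨by linarith [hu.2], by linarith [hu.1]⟩ y
  have h := hmono ⟨le_rfl, ht⟩ ⟨ht, le_rfl⟩ ht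
  have h0 : φ 0 = g t x := by simp [hφ]
  have h1 : φ t = (NormedSpace.exp (t • gen r) *ᵥ g 0) x := by simp [hφ]
  rw [h0, h1] at h
  exact h

/-- Subharmonic functions: `h ≤ P_t h`. -/
theorem le_exp_of_subharmonic {r : S → S → ℝ} (hr : ∀ x y, 0 ≤ r x y) {t : ℝ} (ht : 0 ≤ t)
    {h : S → ℝ} (hsub : ∀ x, 0 ≤ (gen r *ᵥ h) x) (x : S) :
    h x ≤ (NormedSpace.exp (t • gen r) *ᵥ h) x := by
  have := le_exp_of_subsolution hr ht (g := fun _ => h) (g' := fun _ => 0)
    (fun τ _ y => hasDerivAt_const τ (h y)) (fun τ _ x => by simpa using hsub x) x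
  exact this

/-- Superharmonic functions: `P_t h ≤ h`. -/
theorem exp_le_of_superharmonic {r : S → S → ℝ} (hr : ∀ x y, 0 ≤ r x y) {t : ℝ} (ht : 0 ≤ t)
    {h : S → ℝ} (hsup : ∀ x, (gen r *ᵥ h) x ≤ 0) (x : S) :
    (NormedSpace.exp (t • gen r) *ᵥ h) x ≤ h x := by
  have := le_exp_of_subharmonic hr ht (h := -h)
    (fun x => by rw [Matrix.mulVec_neg, Pi.neg_apply]; linarith [hsup x]) x
  rw [Matrix.mulVec_neg, Pi.neg_apply, Pi.neg_apply] at this
  linarith

theorem exp_gen_one {r : S → S → ℝ} (hr : ∀ x y, 0 ≤ r x y) {t : ℝ} (ht : 0 ≤ t) (x : S) :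
    ∑ y, NormedSpace.exp (t • gen r) x y = 1 := by
  have h0 : ∀ x, (gen r *ᵥ fun _ => (1 : ℝ)) x = 0 := fun x => by rw [gen_mulVec]; simp
  have h1 := le_exp_of_subharmonic hr ht (h := fun _ => 1) (fun x => (h0 x).ge) x
  have h2 := exp_le_of_superharmonic hr ht (h := fun _ => 1) (fun x => (h0 x).le) x
  simp only [Matrix.mulVec, dotProduct, mul_one] at h1 h2
  linarith

/-! ### Absorption -/

/-- A state is absorbing if no jump leaves it. -/
def Absorbing (r : S → S → ℝ) (x : S) : Prop := ∀ y, r x y = 0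

/-- If `g ≥ 0`, `g ≥ 1` off the absorbing states and `L g ≤ - c g`, then the probability of not
being absorbed at time `t` is at most `e^{-ct} g`. -/
theorem nonabsorbed_le {r : S → S → ℝ} (hr : ∀ x y, 0 ≤ r x y) {c : ℝ} {g : S → ℝ}
    (hg0 : ∀ x, 0 ≤ g x) (hg1 : ∀ x, ¬ Absorbing r x → 1 ≤ g x)
    (hL : ∀ x, (gen r *ᵥ g) x ≤ - c * g x) {t : ℝ} (ht : 0 ≤ t) (x y : S)
    (hy : ¬ Absorbing r y) : NormedSpace.exp (t • gen r) x y ≤ Real.exp (-c * t) * g x := by
  have key : (NormedSpace.exp (t • gen r) *ᵥ g) x ≤ Real.exp (-c * t) * g x := by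
    have hsol := le_exp_of_subsolution hr ht (g := fun τ => -(Real.exp (-c * τ) • g))
      (g' := fun τ => -((Real.exp (-c * τ) * (-c)) • g)) (fun τ _ y => by
        have h1 : HasDerivAt (fun τ : ℝ => -c * τ) (-c) τ := by
          simpa using (hasDerivAt_id τ).const_mul (-c)
        exact (h1.exp.mul_const (g y)).neg) (fun τ _ x => by
        rw [Matrix.mulVec_neg, Matrix.mulVec_smul]
        simp only [Pi.neg_apply, Pi.smul_apply, smul_eq_mul]
        have := mul_le_mul_of_nonneg_left (hL x) (Real.exp_pos (-c * τ)).le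
        linarith) x
    simp only [mul_zero, Real.exp_zero, one_smul, Matrix.mulVec_neg, Pi.neg_apply, Pi.smul_apply,
      smul_eq_mul] at hsol
    linarith
  refine le_trans ?_ key
  simp only [Matrix.mulVec, dotProduct]
  have h1 : NormedSpace.exp (t • gen r) x y * g y ≤
      ∑ z, NormedSpace.exp (t • gen r) x z * g z :=
    Finset.single_le_sum (f := fun z => NormedSpace.exp (t • gen r) x z * g z)
      (fun z _ => mul_nonneg (exp_gen_nonneg hr ht x z) (hg0 z)) (Finset.mem_univ y)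
  have h2 := mul_le_mul_of_nonneg_left (hg1 y hy) (exp_gen_nonneg hr ht x y)
  linarith

/-- The transition probabilities into absorbing states converge. -/
theorem exists_limit_absorbing {r : S → S → ℝ} (hr : ∀ x y, 0 ≤ r x y) (x y : S)
    (hy : Absorbing r y) :
    ∃ l : ℝ, Tendsto (fun t : ℝ => NormedSpace.exp (t • gen r) x y) atTop (𝓝 l) := by
  set φ : ℝ → ℝ := fun t => NormedSpace.exp (t • gen r) x y with hφ
  have hd : ∀ t, HasDerivAt φ ((NormedSpace.exp (t • gen r) * gen r) x y) t := fun t =>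
    hasDerivAt_exp (gen r) t x y
  have hmono : MonotoneOn φ (Set.Ici 0) := by
    apply monotoneOn_of_deriv_nonneg (convex_Ici 0)
    · exact fun u _ => (hd u).continuousAt.continuousWithinAt
    · intro u _
      exact (hd u).differentiableAt.differentiableWithinAt
    · intro u hu
      rw [interior_Ici] at hu
      rw [(hd u).deriv, Matrix.mul_apply]
      apply Finset.sum_nonneg
      intro z _
      apply mul_nonneg (exp_gen_nonneg hr (le_of_lt hu) x z)
      unfold gen
      by_cases hzy : z = y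
      · subst hzy
        have h0 : ∑ w, r z w = 0 := Finset.sum_eq_zero fun w _ => hy w
        rw [if_pos rfl, h0, hy]; norm_num
      · rw [if_neg hzy, sub_zero]; exact hr z y
  have hbdd : ∀ t, 0 ≤ t → φ t ≤ 1 := by
    intro t ht
    have h1 := exp_gen_one hr ht x
    rw [← h1]
    exact Finset.single_le_sum (f := fun z => NormedSpace.exp (t • gen r) x z)
      (fun z _ => exp_gen_nonneg hr ht x z) (Finset.mem_univ y)
  have hm : Monotone fun t : ℝ => φ (max t 0) := by
    intro a b hab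
    exact hmono (Set.mem_Ici.mpr (le_max_right _ _)) (Set.mem_Ici.mpr (le_max_right _ _))
      (max_le_max_right 0 hab)
  have hb : BddAbove (Set.range fun t : ℝ => φ (max t 0)) := by
    refine ⟨1, ?_⟩
    rintro _ ⟨t, rfl⟩
    exact hbdd _ (le_max_right _ _)
  refine ⟨_, (tendsto_atTop_ciSup hm hb).congr' ?_⟩
  filter_upwards [eventually_ge_atTop 0] with t ht
  rw [max_eq_left ht]

end Pool.Agent.Q288.CTMC
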