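import Mathlib
import Pool.Agent.Q288.CTMC.NonExpl

/-!
# The forward equation of a non-explosive jump process
-/

set_option autoImplicit false
set_option linter.unusedSectionVars false

namespace Q288.Jump

open MeasureTheory ProbabilityTheory Pool.Agent.W845.CP Filter Topology Set
open scoped ENNReal

variable {X : Type} [MeasurableSpace X] [Countable X] [DiscreteMeasurableSpace X]

open Classical in
/-- The state at time `t` of the path with states `(ω n).1` and jump times `(ω n).2`. -/
noncomputable def stateAt (ω : ℕ → X × ℝ) (t : ℝ) : X :=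
  if h : ∃ n, t < (ω (n + 1)).2 then (ω (Nat.find h)).1 else (ω 0).1

/-- A path is regular if its jump times start at `0`, are nondecreasing and tend to infinity. -/
def Reg (ω : ℕ → X × ℝ) : Prop :=
  (ω 0).2 = 0 ∧ (∀ n, (ω n).2 ≤ (ω (n + 1)).2) ∧ Tendsto (fun n => (ω n).2) atTop atTop

lemma Reg.exists_idx {ω : ℕ → X × ℝ} (h : Reg ω) {t : ℝ} (ht : 0 ≤ t) :
    ∃ n, (ω n).2 ≤ t ∧ t < (ω (n + 1)).2 ∧ stateAt ω t = (ω n).1 ∧
      ∀ m, (ω m).2 ≤ t → t < (ω (m + 1)).2 → m = n := by
  classical
  have hex : ∃ n, t < (ω (n + 1)).2 := by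
    have := (tendsto_add_atTop_iff_nat 1).2 h.2.2
    exact (this.eventually (eventually_gt_atTop t)).exists
  have hmono : Monotone (fun n => (ω n).2) := monotone_nat_of_le_succ h.2.1
  refine ⟨Nat.find hex, ?_, Nat.find_spec hex, ?_, ?_⟩
  · rcases Nat.eq_zero_or_pos (Nat.find hex) with h0 | h0
    · rw [h0, h.1]; exact ht
    · obtain ⟨k, hk⟩ := Nat.exists_eq_succ_of_ne_zero h0.ne'
      rw [hk]
      exact not_lt.1 (Nat.find_min hex (m := k) (by omega))
  · unfold stateAt; rw [dif_pos hex]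
  · intro m h1 h2
    refine le_antisymm ?_ (Nat.find_min' hex h2)
    by_contra hc
    have h3 : Nat.find hex + 1 ≤ m := by omega
    have h4 : (ω (Nat.find hex + 1)).2 ≤ (ω m).2 := hmono h3
    exact absurd (Nat.find_spec hex) (not_lt.2 (h4.trans h1))

open Classical in
lemma Reg.tsum_eq {ω : ℕ → X × ℝ} (h : Reg ω) {t : ℝ} (ht : 0 ≤ t) (f : X → ℝ≥0∞) :
    f (stateAt ω t) = ∑' n, (if (ω n).2 ≤ t ∧ t < (ω (n + 1)).2 then f (ω n).1 else 0) := by
  obtain ⟨n, h1, h2, h3, h4⟩ := h.exists_idx ht
  rw [tsum_eq_single n, if_pos ⟨h1, h2⟩, h3]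
  intro m hm
  rw [if_neg]
  exact fun hc => hm (h4 m hc.1 hc.2)

/-- The Markov property for consecutive pairs. -/
theorem tower' (J : X → Measure X) (hJ : GoodJ J) (x0 : X) (n : ℕ)
    (F : X × ℝ → X × ℝ → ℝ≥0∞) (hF : Measurable (Function.uncurry F)) :
    ∫⁻ ω, F (ω n) (ω (n + 1)) ∂(law J hJ x0) =
      ∫⁻ ω, ∫⁻ z, F (ω n) z ∂(stepM J (ω n)) ∂(law J hJ x0) := by
  have h := tower J hJ x0 n (fun h z => F (h ⟨n, by simp⟩) z) (by
    have : (Function.uncurry fun (h : Π _ : Finset.Iic n, X × ℝ) (z : X × ℝ) =>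
        F (h ⟨n, by simp⟩) z) = fun q => Function.uncurry F ((q.1 ⟨n, by simp⟩), q.2) := by
      ext q; rfl
    rw [this]
    exact hF.comp (by fun_prop))
  exact h

lemma exp_le (q : ℝ) (hq : 0 < q) (c : ℝ) :
    ∫⁻ s, (if s ≤ c then (1 : ℝ≥0∞) else 0) ∂(expMeasure q) =
      ENNReal.ofReal (if 0 ≤ c then 1 - Real.exp (-(q * c)) else 0) := by
  haveI := isProbabilityMeasure_expMeasure hq
  have h1 : ∫⁻ s, (if s ≤ c then (1 : ℝ≥0∞) else 0) ∂(expMeasure q) = expMeasure q (Iic c) := by
    rw [← lintegral_indicator_one measurableSet_Iic]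
    refine lintegral_congr fun s => ?_
    simp only [Set.indicator, Set.mem_Iic, Pi.one_apply]
  rw [h1, ← cdf_expMeasure_eq hq, cdf_eq_real, ofReal_measureReal]

lemma exp_gt (q : ℝ) (hq : 0 < q) (c : ℝ) (hc : 0 ≤ c) :
    ∫⁻ s, (if c < s then (1 : ℝ≥0∞) else 0) ∂(expMeasure q) =
      ENNReal.ofReal (Real.exp (-(q * c))) := by
  haveI := isProbabilityMeasure_expMeasure hq
  have h1 : ∫⁻ s, (if c < s then (1 : ℝ≥0∞) else 0) ∂(expMeasure q) = expMeasure q (Iic c)ᶜ := by
    rw [← lintegral_indicator_one measurableSet_Iic.compl]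
    refine lintegral_congr fun s => ?_
    simp only [Set.indicator, Set.mem_compl_iff, Set.mem_Iic, not_le, Pi.one_apply]
  have h2 : expMeasure q (Iic c) = ENNReal.ofReal (1 - Real.exp (-(q * c))) := by
    have := exp_le q hq c
    rw [if_pos hc] at this
    rw [← this, ← lintegral_indicator_one measurableSet_Iic]
    refine lintegral_congr fun s => ?_
    simp only [Set.indicator, Set.mem_Iic, Pi.one_apply]
  rw [h1, prob_compl_eq_one_sub measurableSet_Iic, h2, ← ENNReal.ofReal_one,
    ← ENNReal.ofReal_sub _ (by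
      have : Real.exp (-(q * c)) ≤ 1 := Real.exp_le_one_iff.2 (by nlinarith)
      linarith)]
  congr 1; ring

/-- `1{r ≤ u} e^{-q(u-r)}`. -/
noncomputable def surv (q r u : ℝ) : ℝ≥0∞ :=
  if r ≤ u then ENNReal.ofReal (Real.exp (-(q * (u - r)))) else 0

/-- `1{r ≤ u} (1 - e^{-q(u-r)})`. -/
noncomputable def dead (q r u : ℝ) : ℝ≥0∞ :=
  if r ≤ u then ENNReal.ofReal (1 - Real.exp (-(q * (u - r)))) else 0

lemma measurable_surv : Measurable fun p : ℝ × ℝ × ℝ => surv p.1 p.2.1 p.2.2 := by
  unfold surv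
  exact Measurable.ite (measurableSet_le (by fun_prop) (by fun_prop)) (by fun_prop)
    measurable_const

lemma measurable_dead : Measurable fun p : ℝ × ℝ × ℝ => dead p.1 p.2.1 p.2.2 := by
  unfold dead
  exact Measurable.ite (measurableSet_le (by fun_prop) (by fun_prop)) (by fun_prop)
    measurable_const

lemma lintegral_surv (q : ℝ) (hq : 0 < q) (r : ℝ) (hr : 0 ≤ r) (t : ℝ) :
    ∫⁻ u in Ioc 0 t, surv q r u = (ENNReal.ofReal q)⁻¹ * dead q r t := by
  by_cases hrt : r ≤ t
  · have h1 : ∫⁻ u in Ioc 0 t, surv q r u =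
        ∫⁻ u in Ioc r t, ENNReal.ofReal (Real.exp (-(q * (u - r)))) := by
      rw [← lintegral_indicator measurableSet_Ioc, ← lintegral_indicator measurableSet_Ioc]
      refine lintegral_congr_ae ?_
      have h0 : ∀ᵐ u : ℝ, u ≠ r := by
        simp [ae_iff]
      filter_upwards [h0] with u hu
      simp only [Set.indicator, Set.mem_Ioc, surv]
      by_cases h2 : r ≤ u
      · have h3 : r < u := lt_of_le_of_ne h2 (Ne.symm hu)
        by_cases h4 : u ≤ t
        · rw [if_pos ⟨by linarith, h4⟩, if_pos h2, if_pos ⟨h3, h4⟩]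
        · rw [if_neg (fun hc => h4 hc.2), if_neg (fun hc => h4 hc.2)]
      · rw [if_neg h2, ite_self, if_neg (fun hc => h2 hc.1.le)]
    have h2 : ∫ u in r..t, Real.exp (-(q * (u - r))) = (1 - Real.exp (-(q * (t - r)))) / q := by
      have h3 : ∀ u ∈ Set.uIcc r t, HasDerivAt (fun u => -Real.exp (-(q * (u - r))) / q)
          (Real.exp (-(q * (u - r)))) u := by
        intro u _
        have h4 : HasDerivAt (fun u : ℝ => -q * (u - r)) (-q * 1) u :=
          ((hasDerivAt_id' u).sub_const r).const_mul (-q)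
        have h5 : HasDerivAt (fun u : ℝ => -Real.exp (-q * (u - r)) / q)
          (-(Real.exp (-q * (u - r)) * (-q * 1)) / q) u := (h4.exp.neg).div_const q
        have h6 : -(Real.exp (-q * (u - r)) * (-q * 1)) / q = Real.exp (-(q * (u - r))) := by
          have h7 : -q * (u - r) = -(q * (u - r)) := by ring
          rw [h7]
          have := hq.ne'
          field_simp
        have h8 : (fun u : ℝ => -Real.exp (-(q * (u - r))) / q) =
            fun u : ℝ => -Real.exp (-q * (u - r)) / q := by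
          ext u; congr 3; ring
        rw [h8, ← h6]
        exact h5
      rw [intervalIntegral.integral_eq_sub_of_hasDerivAt h3
        ((by fun_prop : Continuous fun u => Real.exp (-(q * (u - r)))).intervalIntegrable _ _)]
      simp
      ring
    rw [h1, ← ofReal_integral_eq_lintegral_ofReal]
    · rw [← intervalIntegral.integral_of_le hrt, h2]
      unfold dead
      rw [if_pos hrt, ENNReal.ofReal_div_of_pos hq, ENNReal.div_eq_inv_mul]
    · exact ((by fun_prop : Continuous fun u => Real.exp (-(q * (u - r)))).integrableOn_Icc).mono_set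
        Ioc_subset_Icc_self
    · exact Filter.Eventually.of_forall fun u => Real.exp_nonneg _
  · have h1 : ∀ u ∈ Ioc 0 t, surv q r u = 0 := by
      intro u hu
      unfold surv
      rw [if_neg (fun hc => hrt (hc.trans hu.2))]
    rw [setLIntegral_congr_fun measurableSet_Ioc h1]
    unfold dead
    rw [if_neg hrt]
    simp

lemma measurableSet_stay (n : ℕ) (t : ℝ) :
    MeasurableSet {ω : ℕ → X × ℝ | (ω n).2 ≤ t ∧ t < (ω (n + 1)).2} := by
  have h1 : Measurable fun ω : ℕ → X × ℝ => (ω n).2 := by fun_prop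
  have h2 : Measurable fun ω : ℕ → X × ℝ => (ω (n + 1)).2 := by fun_prop
  exact (measurableSet_le h1 measurable_const).inter (measurableSet_lt measurable_const h2)

variable (J : X → Measure X) (hJ : GoodJ J) (x0 : X)

/-- total rate as a real number -/
noncomputable def qq (x : X) : ℝ := (J x Set.univ).toReal

include hJ in
lemma qq_pos (x : X) : 0 < qq J x := ENNReal.toReal_pos (hJ x).1 (hJ x).2

include hJ in
lemma ofReal_qq (x : X) : ENNReal.ofReal (qq J x) = J x Set.univ :=
  ENNReal.ofReal_toReal (hJ x).2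

lemma measurable_qq : Measurable (qq J) := measurable_of_countable _

open Classical in
theorem step_stay (H : X → ℝ≥0∞) (n : ℕ) (t : ℝ) :
    ∫⁻ ω, (if (ω n).2 ≤ t ∧ t < (ω (n + 1)).2 then H (ω n).1 else 0) ∂(law J hJ x0) =
      ∫⁻ ω, H (ω n).1 * surv (qq J (ω n).1) (ω n).2 t ∂(law J hJ x0) := by
  have hH : Measurable H := measurable_of_countable _
  rw [tower' J hJ x0 n (fun z z' => if z.2 ≤ t ∧ t < z'.2 then H z.1 else 0)]
  · refine lintegral_congr fun ω => ?_
    rw [lintegral_stepM J hJ _ (fun z => if (ω n).2 ≤ t ∧ t < z.2 then H (ω n).1 else 0)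
      (Measurable.ite ((MeasurableSet.const _).inter
      (measurableSet_lt measurable_const measurable_snd)) measurable_const measurable_const)]
    unfold surv
    by_cases h : (ω n).2 ≤ t
    · rw [if_pos h]
      have h1 : ∫⁻ s, (if (ω n).2 ≤ t ∧ t < (ω n).2 + s then H (ω n).1 else 0)
          ∂(expMeasure (J (ω n).1 Set.univ).toReal) =
          H (ω n).1 * ENNReal.ofReal (Real.exp (-(qq J (ω n).1 * (t - (ω n).2)))) := by
        have mm : Measurable fun s : ℝ => if t - (ω n).2 < s then (1 : ℝ≥0∞) else 0 :=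
          Measurable.ite (measurableSet_lt measurable_const measurable_id)
            measurable_const measurable_const
        rw [← exp_gt _ (qq_pos J hJ (ω n).1) _ (by linarith), ← lintegral_const_mul _ mm]
        unfold qq
        refine lintegral_congr fun s => ?_
        by_cases h2 : t < (ω n).2 + s
        · rw [if_pos ⟨h, h2⟩, if_pos (by linarith), mul_one]
        · rw [if_neg (fun hc => h2 hc.2), if_neg (by intro hc; apply h2; linarith), mul_zero]
      simp only [h1, lintegral_const]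
      rw [mul_comm _ (J (ω n).1 Set.univ), ← mul_assoc,
        ENNReal.inv_mul_cancel (hJ _).1 (hJ _).2, one_mul]
    · simp [h]
  · have : (Function.uncurry fun (z z' : X × ℝ) => if z.2 ≤ t ∧ t < z'.2 then H z.1 else 0) =
        fun p : (X × ℝ) × (X × ℝ) => if p.1.2 ≤ t ∧ t < p.2.2 then H p.1.1 else 0 := rfl
    rw [this]
    have h1 : Measurable fun p : (X × ℝ) × (X × ℝ) => p.1.2 := by fun_prop
    have h2 : Measurable fun p : (X × ℝ) × (X × ℝ) => p.2.2 := by fun_prop
    refine Measurable.ite ?_ (by fun_prop) measurable_const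
    exact (measurableSet_le h1 measurable_const).inter (measurableSet_lt measurable_const h2)

open Classical in
theorem step_jump (h : X → ℝ≥0∞) (n : ℕ) (t : ℝ) :
    ∫⁻ ω, (if (ω (n + 1)).2 ≤ t then h (ω (n + 1)).1 else 0) ∂(law J hJ x0) =
      ∫⁻ ω, ((J (ω n).1 Set.univ)⁻¹ * ∫⁻ y, h y ∂(J (ω n).1)) *
        dead (qq J (ω n).1) (ω n).2 t ∂(law J hJ x0) := by
  have hH : Measurable h := measurable_of_countable _
  rw [tower' J hJ x0 n (fun _ z' => if z'.2 ≤ t then h z'.1 else 0)]
  · refine lintegral_congr fun ω => ?_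
    have mm0 : Measurable fun z' : X × ℝ => if z'.2 ≤ t then h z'.1 else 0 :=
      Measurable.ite (measurableSet_le measurable_snd measurable_const) (by fun_prop)
        measurable_const
    rw [lintegral_stepM J hJ _ _ mm0, mul_assoc]
    congr 1
    have h1 : ∀ y, ∫⁻ s, (if (ω n).2 + s ≤ t then h y else 0)
        ∂(expMeasure (J (ω n).1 Set.univ).toReal) = h y * dead (qq J (ω n).1) (ω n).2 t := by
      intro y
      have h2 := exp_le _ (qq_pos J hJ (ω n).1) (t - (ω n).2)
      unfold dead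
      have h3 : (if (ω n).2 ≤ t then ENNReal.ofReal
          (1 - Real.exp (-(qq J (ω n).1 * (t - (ω n).2)))) else 0) = ENNReal.ofReal
          (if 0 ≤ t - (ω n).2 then 1 - Real.exp (-(qq J (ω n).1 * (t - (ω n).2))) else 0) := by
        by_cases h4 : (ω n).2 ≤ t
        · rw [if_pos h4, if_pos (by linarith)]
        · rw [if_neg h4, if_neg (by intro hc; apply h4; linarith), ENNReal.ofReal_zero]
      have mm : Measurable fun s : ℝ => if s ≤ t - (ω n).2 then (1 : ℝ≥0∞) else 0 :=
        Measurable.ite (measurableSet_le measurable_id measurable_const) measurable_const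
          measurable_const
      rw [h3, ← h2, ← lintegral_const_mul _ mm]
      unfold qq
      refine lintegral_congr fun s => ?_
      by_cases h5 : (ω n).2 + s ≤ t
      · rw [if_pos h5, if_pos (by linarith), mul_one]
      · rw [if_neg h5, if_neg (by intro hc; apply h5; linarith), mul_zero]
    simp only [h1]
    rw [lintegral_mul_const _ hH]
  · have : (Function.uncurry fun (_ z' : X × ℝ) => if z'.2 ≤ t then h z'.1 else 0) =
        fun p : (X × ℝ) × (X × ℝ) => if p.2.2 ≤ t then h p.2.1 else 0 := rfl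
    rw [this]
    exact Measurable.ite (measurableSet_le (by fun_prop) measurable_const) (by fun_prop)
      measurable_const

open Classical in
theorem step_jump' (H : X → ℝ≥0∞) (n : ℕ) (t : ℝ) :
    ∫⁻ ω, (if (ω (n + 1)).2 ≤ t then H (ω n).1 else 0) ∂(law J hJ x0) =
      ∫⁻ ω, H (ω n).1 * dead (qq J (ω n).1) (ω n).2 t ∂(law J hJ x0) := by
  have hH : Measurable H := measurable_of_countable _
  rw [tower' J hJ x0 n (fun z z' => if z'.2 ≤ t then H z.1 else 0)]
  · refine lintegral_congr fun ω => ?_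
    have mm0 : Measurable fun z' : X × ℝ => if z'.2 ≤ t then H (ω n).1 else 0 :=
      Measurable.ite (measurableSet_le measurable_snd measurable_const) measurable_const
        measurable_const
    rw [lintegral_stepM J hJ _ _ mm0]
    have h1 : ∫⁻ s, (if (ω n).2 + s ≤ t then H (ω n).1 else 0)
        ∂(expMeasure (J (ω n).1 Set.univ).toReal) =
        H (ω n).1 * dead (qq J (ω n).1) (ω n).2 t := by
      have h2 := exp_le _ (qq_pos J hJ (ω n).1) (t - (ω n).2)
      unfold dead
      have h3 : (if (ω n).2 ≤ t then ENNReal.ofReal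
          (1 - Real.exp (-(qq J (ω n).1 * (t - (ω n).2)))) else 0) = ENNReal.ofReal
          (if 0 ≤ t - (ω n).2 then 1 - Real.exp (-(qq J (ω n).1 * (t - (ω n).2))) else 0) := by
        by_cases h4 : (ω n).2 ≤ t
        · rw [if_pos h4, if_pos (by linarith)]
        · rw [if_neg h4, if_neg (by intro hc; apply h4; linarith), ENNReal.ofReal_zero]
      have mm : Measurable fun s : ℝ => if s ≤ t - (ω n).2 then (1 : ℝ≥0∞) else 0 :=
        Measurable.ite (measurableSet_le measurable_id measurable_const) measurable_const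
          measurable_const
      rw [h3, ← h2, ← lintegral_const_mul _ mm]
      unfold qq
      refine lintegral_congr fun s => ?_
      by_cases h5 : (ω n).2 + s ≤ t
      · rw [if_pos h5, if_pos (by linarith), mul_one]
      · rw [if_neg h5, if_neg (by intro hc; apply h5; linarith), mul_zero]
    simp only [h1, lintegral_const]
    rw [mul_comm _ (J (ω n).1 Set.univ), ← mul_assoc,
      ENNReal.inv_mul_cancel (hJ _).1 (hJ _).2, one_mul]
  · have : (Function.uncurry fun (z z' : X × ℝ) => if z'.2 ≤ t then H z.1 else 0) =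
        fun p : (X × ℝ) × (X × ℝ) => if p.2.2 ≤ t then H p.1.1 else 0 := rfl
    rw [this]
    exact Measurable.ite (measurableSet_le (by fun_prop) measurable_const) (by fun_prop)
      measurable_const

/-- The expectation of `f` at time `t`. -/
noncomputable def pr (t : ℝ) (f : X → ℝ≥0∞) : ℝ≥0∞ :=
  ∫⁻ ω, f (stateAt ω t) ∂(law J hJ x0)

theorem pr_eq (hreg : ∀ᵐ ω ∂(law J hJ x0), Reg ω) {t : ℝ} (ht : 0 ≤ t) (f : X → ℝ≥0∞) :
    pr J hJ x0 t f = ∑' n, ∫⁻ ω, f (ω n).1 * surv (qq J (ω n).1) (ω n).2 t ∂(law J hJ x0) := by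
  classical
  have hf : Measurable f := measurable_of_countable _
  unfold pr
  calc ∫⁻ ω, f (stateAt ω t) ∂(law J hJ x0)
      = ∫⁻ ω, ∑' n, (if (ω n).2 ≤ t ∧ t < (ω (n + 1)).2 then f (ω n).1 else 0)
          ∂(law J hJ x0) := by
        refine lintegral_congr_ae ?_
        filter_upwards [hreg] with ω hω using hω.tsum_eq ht f
    _ = _ := by
        rw [lintegral_tsum]
        · exact tsum_congr fun n => step_stay J hJ x0 f n t
        · intro n
          have mm : Measurable fun ω : ℕ → X × ℝ =>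
              if (ω n).2 ≤ t ∧ t < (ω (n + 1)).2 then f (ω n).1 else 0 :=
            Measurable.ite (measurableSet_stay n t) (by fun_prop) measurable_const
          exact mm.aemeasurable

lemma measurable_term (f : X → ℝ≥0∞) (n : ℕ) :
    Measurable fun p : (ℕ → X × ℝ) × ℝ => f (p.1 n).1 * surv (qq J (p.1 n).1) (p.1 n).2 p.2 := by
  have hf : Measurable f := measurable_of_countable _
  have hq := measurable_qq J
  refine Measurable.mul (by fun_prop) ?_
  exact measurable_surv.comp (by fun_prop : Measurable fun p : (ℕ → X × ℝ) × ℝ =>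
    (qq J (p.1 n).1, (p.1 n).2, p.2))

theorem lintegral_pr (hreg : ∀ᵐ ω ∂(law J hJ x0), Reg ω) (t : ℝ) (f : X → ℝ≥0∞) :
    ∫⁻ u in Ioc 0 t, pr J hJ x0 u f = ∑' n, ∫⁻ ω, f (ω n).1 * (J (ω n).1 Set.univ)⁻¹ *
      dead (qq J (ω n).1) (ω n).2 t ∂(law J hJ x0) := by
  have hf : Measurable f := measurable_of_countable _
  have hq := measurable_qq J
  have h1 : ∫⁻ u in Ioc 0 t, pr J hJ x0 u f = ∫⁻ u in Ioc 0 t,
      ∑' n, ∫⁻ ω, f (ω n).1 * surv (qq J (ω n).1) (ω n).2 u ∂(law J hJ x0) :=
    setLIntegral_congr_fun measurableSet_Ioc fun u hu => pr_eq J hJ x0 hreg hu.1.le f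
  rw [h1, lintegral_tsum]
  · refine tsum_congr fun n => ?_
    rw [lintegral_lintegral_swap]
    · refine lintegral_congr_ae ?_
      filter_upwards [hreg] with ω hω
      have hmono : Monotone (fun n => (ω n).2) := monotone_nat_of_le_succ hω.2.1
      have h0 : 0 ≤ (ω n).2 := by
        have := hmono (Nat.zero_le n)
        simp only [hω.1] at this
        exact this
      have mm : Measurable fun u : ℝ => surv (qq J (ω n).1) (ω n).2 u :=
        measurable_surv.comp (by fun_prop : Measurable fun u : ℝ => (qq J (ω n).1, (ω n).2, u))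
      rw [lintegral_const_mul _ mm, lintegral_surv _ (qq_pos J hJ _) _ h0, ofReal_qq J hJ,
        mul_assoc]
    · exact ((measurable_term J f n).comp measurable_swap).aemeasurable
  · intro n
    have mm := (measurable_term J f n).comp
      (measurable_swap : Measurable (Prod.swap : ℝ × (ℕ → X × ℝ) → (ℕ → X × ℝ) × ℝ))
    exact (Measurable.lintegral_prod_right' mm).aemeasurable

/-- **The forward equation.** -/
theorem forward (hreg : ∀ᵐ ω ∂(law J hJ x0), Reg ω) {t : ℝ} (ht : 0 ≤ t) (f : X → ℝ≥0∞) :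
    pr J hJ x0 t f + ∫⁻ u in Ioc 0 t, pr J hJ x0 u (fun y => J y Set.univ * f y) =
      f x0 + ∫⁻ u in Ioc 0 t, pr J hJ x0 u (fun y => ∫⁻ z, f z ∂(J y)) := by
  classical
  have hf : Measurable f := measurable_of_countable _
  have e1 : ∫⁻ u in Ioc 0 t, pr J hJ x0 u (fun y => J y Set.univ * f y) =
      ∑' n, ∫⁻ ω, (if (ω (n + 1)).2 ≤ t then f (ω n).1 else 0) ∂(law J hJ x0) := by
    rw [lintegral_pr J hJ x0 hreg]
    refine tsum_congr fun n => ?_
    rw [step_jump' J hJ x0]
    refine lintegral_congr fun ω => ?_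
    rw [mul_comm (J (ω n).1 Set.univ), mul_assoc (f _), ENNReal.mul_inv_cancel (hJ _).1 (hJ _).2,
      mul_one]
  have e2 : ∫⁻ u in Ioc 0 t, pr J hJ x0 u (fun y => ∫⁻ z, f z ∂(J y)) =
      ∑' n, ∫⁻ ω, (if (ω (n + 1)).2 ≤ t then f (ω (n + 1)).1 else 0) ∂(law J hJ x0) := by
    rw [lintegral_pr J hJ x0 hreg]
    refine tsum_congr fun n => ?_
    rw [step_jump J hJ x0]
    refine lintegral_congr fun ω => ?_
    rw [mul_comm (∫⁻ z, f z ∂(J (ω n).1))]
  have m1 : ∀ n, Measurable fun ω : ℕ → X × ℝ => if (ω n).2 ≤ t then f (ω n).1 else 0 := by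
    intro n
    exact Measurable.ite (measurableSet_le (by fun_prop) measurable_const) (by fun_prop)
      measurable_const
  have m2 : ∀ n, Measurable fun ω : ℕ → X × ℝ => if (ω (n + 1)).2 ≤ t then f (ω n).1 else 0 := by
    intro n
    exact Measurable.ite (measurableSet_le (by fun_prop) measurable_const) (by fun_prop)
      measurable_const
  have m3 : ∀ n, Measurable fun ω : ℕ → X × ℝ =>
      if (ω n).2 ≤ t ∧ t < (ω (n + 1)).2 then f (ω n).1 else 0 := by
    intro n
    exact Measurable.ite (measurableSet_stay n t) (by fun_prop) measurable_const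
  have e3 : pr J hJ x0 t f = ∑' n, ∫⁻ ω, (if (ω n).2 ≤ t ∧ t < (ω (n + 1)).2 then f (ω n).1 else 0)
      ∂(law J hJ x0) := by
    rw [pr_eq J hJ x0 hreg ht]
    exact tsum_congr fun n => (step_stay J hJ x0 f n t).symm
  have e4 : ∀ n, ∫⁻ ω, (if (ω n).2 ≤ t ∧ t < (ω (n + 1)).2 then f (ω n).1 else 0) ∂(law J hJ x0) +
      ∫⁻ ω, (if (ω (n + 1)).2 ≤ t then f (ω n).1 else 0) ∂(law J hJ x0) =
      ∫⁻ ω, (if (ω n).2 ≤ t then f (ω n).1 else 0) ∂(law J hJ x0) := by
    intro n
    rw [← lintegral_add_left (m3 n)]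
    refine lintegral_congr_ae ?_
    filter_upwards [hreg] with ω hω
    have h1 := hω.2.1 n
    by_cases h2 : (ω n).2 ≤ t
    · by_cases h3 : (ω (n + 1)).2 ≤ t
      · rw [if_neg (fun hc => absurd hc.2 (not_lt.2 h3)), if_pos h3, if_pos h2, zero_add]
      · rw [if_pos ⟨h2, not_le.1 h3⟩, if_neg h3, if_pos h2, add_zero]
    · rw [if_neg (fun hc => h2 hc.1), if_neg (fun hc => h2 (h1.trans hc)), if_neg h2, add_zero]
  rw [e1, e2, e3, ← ENNReal.tsum_add]
  rw [tsum_congr e4, tsum_eq_zero_add' ENNReal.summable]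
  congr 1
  have h5 : ∀ᵐ ω ∂(law J hJ x0), (if (ω 0).2 ≤ t then f (ω 0).1 else 0) = f (ω 0).1 := by
    filter_upwards [hreg] with ω hω
    rw [if_pos (by rw [hω.1]; exact ht)]
  rw [lintegral_congr_ae h5, lintegral_zero]

end Q288.Jump
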