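import Mathlib
import Pool.Agent.Q288.CTMC.Forward

/-!
# Comparison of the laws at time `t` of two jump processes with bounded rates
-/

set_option autoImplicit false
set_option linter.unusedSectionVars false

namespace Q288.Jump

open MeasureTheory ProbabilityTheory Pool.Agent.W845.CP Filter Topology Set
open scoped ENNReal

lemma real_compare (Λ : ℝ) (hΛ : 0 < Λ) (D : ℕ → ℝ → ℝ) (hm : ∀ k, Measurable (D k))
    (hb : ∀ k t, |D k t| ≤ 1) (δ : ℕ → ℝ) (hδ : ∀ k, δ k ≤ 0)
    (hD : ∀ k, ∀ t, 0 ≤ t → D k t + Λ * ∫ u in (0 : ℝ)..t, D k u =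
      δ k + Λ * ∫ u in (0 : ℝ)..t, D (k + 1) u) (k : ℕ) (t : ℝ) (ht : 0 ≤ t) : D k t ≤ 0 := by
  have hint : ∀ k a b, IntervalIntegrable (D k) volume a b := by
    intro k a b
    refine (intervalIntegrable_const (c := (1 : ℝ))).mono_fun (hm k).aestronglyMeasurable ?_
    exact Filter.Eventually.of_forall fun x => by simpa using hb k x
  -- continuous versions
  set E : ℕ → ℝ → ℝ := fun k t => δ k + Λ * ∫ u in (0 : ℝ)..t, (D (k + 1) u - D k u) with hE
  have hED : ∀ k t, 0 ≤ t → E k t = D k t := by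
    intro k t ht
    simp only [hE]
    rw [intervalIntegral.integral_sub (hint _ _ _) (hint _ _ _)]
    have := hD k t ht
    linarith
  have hEc : ∀ k, Continuous (E k) := by
    intro k
    simp only [hE]
    refine continuous_const.add (continuous_const.mul ?_)
    exact intervalIntegral.continuous_primitive (fun a b => (hint _ _ _).sub (hint _ _ _)) 0
  set F : ℕ → ℝ → ℝ := fun k t => δ k + Λ * ∫ u in (0 : ℝ)..t, (E (k + 1) u - E k u) with hF
  have hFD : ∀ k t, 0 ≤ t → F k t = E k t := by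
    intro k t ht
    simp only [hF]
    have : ∫ u in (0 : ℝ)..t, (E (k + 1) u - E k u) = ∫ u in (0 : ℝ)..t, (D (k + 1) u - D k u) := by
      refine intervalIntegral.integral_congr fun u hu => ?_
      rw [Set.uIcc_of_le ht] at hu
      simp only [hED _ _ hu.1]
    rw [this]
  have hFder : ∀ k t, HasDerivAt (F k) (Λ * (E (k + 1) t - E k t)) t := by
    intro k t
    have h1 : HasDerivAt (fun t => ∫ u in (0 : ℝ)..t, (E (k + 1) u - E k u))
        (E (k + 1) t - E k t) t :=
      (((hEc (k + 1)).sub (hEc k)).integral_hasStrictDerivAt 0 t).hasDerivAt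
    exact (h1.const_mul Λ).const_add _
  have hexp : ∀ k t, 0 ≤ t → Real.exp (Λ * t) * D k t =
      δ k + ∫ s in (0 : ℝ)..t, Λ * Real.exp (Λ * s) * E (k + 1) s := by
    intro k t ht
    have h1 : ∀ s ∈ Set.uIcc 0 t, HasDerivAt (fun s => Real.exp (Λ * s) * F k s)
        (Λ * Real.exp (Λ * s) * E (k + 1) s) s := by
      intro s hs
      rw [Set.uIcc_of_le ht] at hs
      have h2 : HasDerivAt (fun s : ℝ => Real.exp (Λ * s)) (Real.exp (Λ * s) * (Λ * 1)) s :=
        ((hasDerivAt_id' s).const_mul Λ).exp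
      have h3 := h2.mul (hFder k s)
      convert! h3 using 1
      rw [hFD k s hs.1]
      ring
    have h4 := intervalIntegral.integral_eq_sub_of_hasDerivAt h1
      (Continuous.intervalIntegrable (by have := hEc (k + 1); fun_prop) _ _)
    rw [h4, ← hED k t ht, ← hFD k t ht]
    simp only [mul_zero, Real.exp_zero, one_mul]
    have h5 : F k 0 = δ k := by simp [hF]
    rw [h5]; ring
  have hbd : ∀ n k t, 0 ≤ t → D k t ≤ (Λ * t) ^ n / n.factorial := by
    intro n
    induction n with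
    | zero =>
      intro k t ht
      simpa using (abs_le.1 (hb k t)).2
    | succ n ih =>
      intro k t ht
      have h1 := hexp k t ht
      have h2 : ∫ s in (0 : ℝ)..t, Λ * Real.exp (Λ * s) * E (k + 1) s ≤
          ∫ s in (0 : ℝ)..t, Λ * Real.exp (Λ * t) * ((Λ * s) ^ n / n.factorial) := by
        refine intervalIntegral.integral_mono_on ht
          (Continuous.intervalIntegrable (by have := hEc (k + 1); fun_prop) _ _)
          (Continuous.intervalIntegrable (by fun_prop) _ _) ?_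
        intro s hs
        rw [hED _ _ hs.1]
        have h3 : Real.exp (Λ * s) ≤ Real.exp (Λ * t) := Real.exp_le_exp.2 (by
          have := hs.2; nlinarith)
        have h4 := ih (k + 1) s hs.1
        have h5 : 0 ≤ (Λ * s) ^ n / n.factorial := by
          have := hs.1; positivity
        calc Λ * Real.exp (Λ * s) * D (k + 1) s
            ≤ Λ * Real.exp (Λ * s) * ((Λ * s) ^ n / n.factorial) := by gcongr
          _ ≤ _ := by gcongr
      have h6 : ∫ s in (0 : ℝ)..t, Λ * Real.exp (Λ * t) * ((Λ * s) ^ n / n.factorial) =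
          Real.exp (Λ * t) * ((Λ * t) ^ (n + 1) / (n + 1).factorial) := by
        have h7 : ∀ s : ℝ, Λ * Real.exp (Λ * t) * ((Λ * s) ^ n / n.factorial) =
            (Λ ^ (n + 1) * Real.exp (Λ * t) / n.factorial) * s ^ n := by
          intro s; rw [mul_pow]; ring
        simp only [h7]
        rw [intervalIntegral.integral_const_mul, integral_pow, Nat.factorial_succ]
        push_cast
        have h8 : (n.factorial : ℝ) ≠ 0 := by positivity
        have h9 : (n : ℝ) + 1 ≠ 0 := by positivity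
        rw [mul_pow]
        field_simp
        simp
      have h7 : Real.exp (Λ * t) * D k t ≤ Real.exp (Λ * t) *
          ((Λ * t) ^ (n + 1) / (n + 1).factorial) := by
        rw [h1, ← h6]; linarith [hδ k]
      exact le_of_mul_le_mul_left h7 (Real.exp_pos _)
  have hlim : Tendsto (fun n : ℕ => (Λ * t) ^ n / n.factorial) atTop (𝓝 0) :=
    FloorSemiring.tendsto_pow_div_factorial_atTop _
  exact ge_of_tendsto' hlim fun n => hbd n k t ht

variable {X : Type} [MeasurableSpace X] [Countable X] [DiscreteMeasurableSpace X]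
variable (J : X → Measure X) (hJ : GoodJ J)

/-- Bounded rates on an invariant set imply regularity. -/
theorem reg_of_bdd (x : X) (I : X → Prop) (hx : I x) (hI : ∀ y, I y → ∀ᵐ z ∂(J y), I z)
    (Λ : ℝ) (hΛ : 0 < Λ) (hq : ∀ y, I y → J y Set.univ ≤ ENNReal.ofReal Λ) :
    ∀ᵐ ω ∂(law J hJ x), Reg ω := by
  have h1 := ae_inv J hJ x (fun _ => I) hx (fun _ => hI)
  have h2 := nonexplosion J hJ x Λ hΛ (by
    filter_upwards [h1] with ω hω n
    have h3 := hq _ (hω n)
    have h4 : (J (ω n).1 Set.univ).toReal ≤ Λ := ENNReal.toReal_le_of_le_ofReal hΛ.le h3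
    nlinarith [(Nat.cast_nonneg n : (0 : ℝ) ≤ n)])
  filter_upwards [h2, ae_times J hJ x] with ω h3 h4 using ⟨h4.1, h4.2, h3⟩

/-- The invariant holds at all times. -/
theorem ae_stateAt (x : X) (I : X → Prop) (hx : I x) (hI : ∀ y, I y → ∀ᵐ z ∂(J y), I z) :
    ∀ᵐ ω ∂(law J hJ x), ∀ t, I (stateAt ω t) := by
  have h1 := ae_inv J hJ x (fun _ => I) hx (fun _ => hI)
  filter_upwards [h1] with ω hω t
  unfold stateAt
  split_ifs
  · exact hω _
  · exact hω _

lemma pr_mono (x : X) (I : X → Prop) (hx : I x) (hI : ∀ y, I y → ∀ᵐ z ∂(J y), I z) (t : ℝ)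
    (f g : X → ℝ≥0∞) (hfg : ∀ y, I y → f y ≤ g y) : pr J hJ x t f ≤ pr J hJ x t g := by
  unfold pr
  refine lintegral_mono_ae ?_
  filter_upwards [ae_stateAt J hJ x I hx hI] with ω hω using hfg _ (hω t)

lemma pr_const (x : X) (t : ℝ) (c : ℝ≥0∞) : pr J hJ x t (fun _ => c) = c := by
  unfold pr; simp

open Classical in
lemma measurable_stateAt (t : ℝ) : Measurable fun ω : ℕ → X × ℝ => stateAt ω t := by
  have hS : ∀ n : ℕ, MeasurableSet {ω : ℕ → X × ℝ | t < (ω (n + 1)).2} := fun n =>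
    measurableSet_lt measurable_const (by fun_prop)
  have : (fun ω : ℕ → X × ℝ => stateAt ω t) = fun ω => if (∃ n, t < (ω (n + 1)).2) then
      (ω (if h : ∃ n, t < (ω (n + 1)).2 then Nat.find h else 0)).1 else (ω 0).1 := by
    ext ω
    unfold stateAt
    split_ifs <;> rfl
  rw [this]
  have hN : Measurable fun ω : ℕ → X × ℝ =>
      if h : ∃ n, t < (ω (n + 1)).2 then Nat.find h else 0 := by
    refine measurable_to_countable' fun m => ?_
    have e : (fun ω : ℕ → X × ℝ => if h : ∃ n, t < (ω (n + 1)).2 then Nat.find h else 0) ⁻¹' {m} =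
        ({ω | t < (ω (m + 1)).2} ∩ ⋂ k ∈ Finset.range m, {ω | t < (ω (k + 1)).2}ᶜ) ∪
        (if m = 0 then (⋃ k, {ω : ℕ → X × ℝ | t < (ω (k + 1)).2})ᶜ else ∅) := by
      ext ω
      simp only [Set.mem_preimage, Set.mem_singleton_iff, Set.mem_union, Set.mem_inter_iff,
        Set.mem_ofPred_eq, Set.mem_iInter, Finset.mem_range, Set.mem_compl_iff]
      by_cases h : ∃ n, t < (ω (n + 1)).2
      · rw [dif_pos h, Nat.find_eq_iff]
        constructor
        · rintro ⟨h1, h2⟩
          exact Or.inl ⟨h1, fun k hk => h2 k hk⟩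
        · rintro (⟨h1, h2⟩ | h3)
          · exact ⟨h1, fun k hk => h2 k hk⟩
          · exfalso
            split_ifs at h3 with h0
            · apply h3
              obtain ⟨n, hn⟩ := h
              exact Set.mem_iUnion.2 ⟨n, hn⟩
            · exact h3
      · rw [dif_neg h]
        constructor
        · intro h0
          right
          rw [if_pos h0.symm]
          intro hc
          obtain ⟨n, hn⟩ := Set.mem_iUnion.1 hc
          exact h ⟨n, hn⟩
        · rintro (⟨h1, -⟩ | h3)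
          · exact absurd ⟨m, h1⟩ h
          · split_ifs at h3 with h0
            · exact h0.symm
            · exact h3.elim
    rw [e]
    refine MeasurableSet.union ((hS m).inter ?_) ?_
    · exact Finset.measurableSet_biInter _ fun k _ => (hS k).compl
    · split_ifs
      · exact (MeasurableSet.iUnion hS).compl
      · exact MeasurableSet.empty
  refine Measurable.ite ?_ ?_ (by fun_prop)
  · have : {ω : ℕ → X × ℝ | ∃ n, t < (ω (n + 1)).2} = ⋃ n, {ω | t < (ω (n + 1)).2} := by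
      ext ω; simp
    rw [this]
    exact MeasurableSet.iUnion hS
  · have h1 : Measurable fun p : (ℕ → X × ℝ) × ℕ => (p.1 p.2).1 := by
      refine measurable_from_prod_countable_left fun n => ?_
      fun_prop
    exact h1.comp (measurable_id.prodMk hN)

lemma pr_add (x : X) (t : ℝ) (f g : X → ℝ≥0∞) :
    pr J hJ x t (fun y => f y + g y) = pr J hJ x t f + pr J hJ x t g := by
  unfold pr
  exact lintegral_add_left ((measurable_of_countable f).comp (measurable_stateAt t)) _

lemma pr_const_mul (x : X) (t : ℝ) (c : ℝ≥0∞) (f : X → ℝ≥0∞) :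
    pr J hJ x t (fun y => c * f y) = c * pr J hJ x t f := by
  unfold pr
  exact lintegral_const_mul _ ((measurable_of_countable f).comp (measurable_stateAt t))

lemma pr_congr (x : X) (I : X → Prop) (hx : I x) (hI : ∀ y, I y → ∀ᵐ z ∂(J y), I z) (t : ℝ)
    (f g : X → ℝ≥0∞) (hfg : ∀ y, I y → f y = g y) : pr J hJ x t f = pr J hJ x t g :=
  le_antisymm (pr_mono J hJ x I hx hI t f g fun y hy => (hfg y hy).le)
    (pr_mono J hJ x I hx hI t g f fun y hy => (hfg y hy).ge)

/-- A measurable version of the expectation as a function of time. -/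
noncomputable def prm (x : X) (f : X → ℝ≥0∞) (t : ℝ) : ℝ≥0∞ :=
  if 0 ≤ t then ∑' n, ∫⁻ ω, f (ω n).1 * surv (qq J (ω n).1) (ω n).2 t ∂(law J hJ x)
  else 0

lemma measurable_prm (x : X) (f : X → ℝ≥0∞) : Measurable (prm J hJ x f) := by
  unfold prm
  refine Measurable.ite measurableSet_Ici ?_ measurable_const
  refine Measurable.ennreal_tsum fun n => ?_
  have mm := (measurable_term J f n).comp
    (measurable_swap : Measurable (Prod.swap : ℝ × (ℕ → X × ℝ) → (ℕ → X × ℝ) × ℝ))
  exact Measurable.lintegral_prod_right' mm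

lemma prm_eq (x : X) (hreg : ∀ᵐ ω ∂(law J hJ x), Reg ω) (f : X → ℝ≥0∞) {t : ℝ} (ht : 0 ≤ t) :
    prm J hJ x f t = pr J hJ x t f := by
  unfold prm
  rw [if_pos ht, pr_eq J hJ x hreg ht]

lemma aemeas_pr (x : X) (hreg : ∀ᵐ ω ∂(law J hJ x), Reg ω) (f : X → ℝ≥0∞) (t : ℝ) :
    AEMeasurable (fun u => pr J hJ x u f) (volume.restrict (Ioc 0 t)) := by
  refine (measurable_prm J hJ x f).aemeasurable.congr ?_
  rw [Filter.EventuallyEq, ae_restrict_iff' measurableSet_Ioc]
  exact Filter.Eventually.of_forall fun u hu => prm_eq J hJ x hreg f hu.1.le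

/-- The forward equation in uniformised form. -/
theorem forward_unif (x : X) (I : X → Prop) (hx : I x) (hI : ∀ y, I y → ∀ᵐ z ∂(J y), I z)
    (Λ : ℝ) (hΛ : 0 < Λ) (hq : ∀ y, I y → J y Set.univ ≤ ENNReal.ofReal Λ)
    (f f' : X → ℝ≥0∞) (hf1 : ∀ y, I y → f y ≤ 1)
    (hf : ∀ y, I y → ENNReal.ofReal Λ * f' y + J y Set.univ * f y =
      ∫⁻ z, f z ∂(J y) + ENNReal.ofReal Λ * f y) {t : ℝ} (ht : 0 ≤ t) :
    pr J hJ x t f + ENNReal.ofReal Λ * ∫⁻ u in Ioc 0 t, pr J hJ x u f =
      f x + ENNReal.ofReal Λ * ∫⁻ u in Ioc 0 t, pr J hJ x u f' := by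
  have hreg := reg_of_bdd J hJ x I hx hI Λ hΛ hq
  have h1 := forward J hJ x hreg ht f
  set B := ∫⁻ u in Ioc 0 t, pr J hJ x u (fun y => J y Set.univ * f y) with hB
  set C := ∫⁻ u in Ioc 0 t, pr J hJ x u (fun y => ∫⁻ z, f z ∂(J y)) with hC
  have h2 : ENNReal.ofReal Λ * (∫⁻ u in Ioc 0 t, pr J hJ x u f') + B =
      C + ENNReal.ofReal Λ * ∫⁻ u in Ioc 0 t, pr J hJ x u f := by
    rw [← lintegral_const_mul' _ _ ENNReal.ofReal_ne_top,
      ← lintegral_const_mul' _ _ ENNReal.ofReal_ne_top, hB, hC,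
      ← lintegral_add_right' _ (aemeas_pr J hJ x hreg _ t),
      ← lintegral_add_left' (aemeas_pr J hJ x hreg _ t)]
    refine lintegral_congr fun u => ?_
    rw [← pr_const_mul, ← pr_const_mul, ← pr_add, ← pr_add]
    exact pr_congr J hJ x I hx hI u _ _ hf
  have hBfin : B ≠ ⊤ := by
    have h3 : B ≤ ∫⁻ u in Ioc 0 t, ENNReal.ofReal Λ := by
      refine lintegral_mono fun u => ?_
      calc pr J hJ x u (fun y => J y Set.univ * f y) ≤ pr J hJ x u (fun _ => ENNReal.ofReal Λ) := by
            refine pr_mono J hJ x I hx hI u _ _ fun y hy => ?_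
            calc J y Set.univ * f y ≤ ENNReal.ofReal Λ * 1 := mul_le_mul' (hq y hy) (hf1 y hy)
              _ = _ := mul_one _
        _ = ENNReal.ofReal Λ := pr_const J hJ x u _
    refine ne_top_of_le_ne_top ?_ h3
    rw [setLIntegral_const]
    exact ENNReal.mul_ne_top ENNReal.ofReal_ne_top (by simp)
  have h4 : (pr J hJ x t f + ENNReal.ofReal Λ * ∫⁻ u in Ioc 0 t, pr J hJ x u f) + B =
      (f x + ENNReal.ofReal Λ * ∫⁻ u in Ioc 0 t, pr J hJ x u f') + B := by
    calc _ = (pr J hJ x t f + B) + ENNReal.ofReal Λ * ∫⁻ u in Ioc 0 t, pr J hJ x u f := by ring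
      _ = f x + (C + ENNReal.ofReal Λ * ∫⁻ u in Ioc 0 t, pr J hJ x u f) := by rw [h1]; ring
      _ = _ := by rw [← h2]; ring
  exact (ENNReal.add_left_inj hBfin).1 h4

lemma pr_le_one (x : X) (I : X → Prop) (hx : I x) (hI : ∀ y, I y → ∀ᵐ z ∂(J y), I z)
    (f : X → ℝ≥0∞) (hf1 : ∀ y, I y → f y ≤ 1) (t : ℝ) : pr J hJ x t f ≤ 1 := by
  calc pr J hJ x t f ≤ pr J hJ x t (fun _ => 1) := pr_mono J hJ x I hx hI t _ _ hf1
    _ = 1 := pr_const J hJ x t 1

lemma unif_real (x : X) (I : X → Prop) (hx : I x) (hI : ∀ y, I y → ∀ᵐ z ∂(J y), I z)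
    (Λ : ℝ) (hΛ : 0 < Λ) (hq : ∀ y, I y → J y Set.univ ≤ ENNReal.ofReal Λ)
    (f f' : X → ℝ≥0∞) (hf1 : ∀ y, I y → f y ≤ 1) (hf1' : ∀ y, I y → f' y ≤ 1)
    (hf : ∀ y, I y → ENNReal.ofReal Λ * f' y + J y Set.univ * f y =
      ∫⁻ z, f z ∂(J y) + ENNReal.ofReal Λ * f y) {t : ℝ} (ht : 0 ≤ t) :
    (prm J hJ x f t).toReal + Λ * ∫ u in (0 : ℝ)..t, (prm J hJ x f u).toReal =
      (f x).toReal + Λ * ∫ u in (0 : ℝ)..t, (prm J hJ x f' u).toReal := by
  have hreg := reg_of_bdd J hJ x I hx hI Λ hΛ hq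
  have key : ∀ g : X → ℝ≥0∞, (∀ y, I y → g y ≤ 1) →
      ∫ u in (0 : ℝ)..t, (prm J hJ x g u).toReal = (∫⁻ u in Ioc 0 t, pr J hJ x u g).toReal ∧
      ∫⁻ u in Ioc 0 t, pr J hJ x u g ≠ ⊤ := by
    intro g hg
    have e1 : ∫⁻ u in Ioc 0 t, pr J hJ x u g = ∫⁻ u in Ioc 0 t, prm J hJ x g u :=
      setLIntegral_congr_fun measurableSet_Ioc fun u hu => (prm_eq J hJ x hreg g hu.1.le).symm
    have e2 : ∀ u ∈ Ioc 0 t, prm J hJ x g u ≤ 1 := by
      intro u hu
      rw [prm_eq J hJ x hreg g hu.1.le]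
      exact pr_le_one J hJ x I hx hI g hg u
    constructor
    · rw [intervalIntegral.integral_of_le ht, e1, integral_toReal]
      · exact (measurable_prm J hJ x g).aemeasurable
      · rw [ae_restrict_iff' measurableSet_Ioc]
        exact Filter.Eventually.of_forall fun u hu => (e2 u hu).trans_lt ENNReal.one_lt_top
    · rw [e1]
      refine ne_top_of_le_ne_top ?_ (setLIntegral_mono' measurableSet_Ioc e2)
      rw [setLIntegral_const]
      simp
  obtain ⟨k1, k2⟩ := key f hf1
  obtain ⟨k3, k4⟩ := key f' hf1'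
  have h := forward_unif J hJ x I hx hI Λ hΛ hq f f' hf1 hf ht
  rw [k1, k3, prm_eq J hJ x hreg f ht]
  have h2 := congrArg ENNReal.toReal h
  rw [ENNReal.toReal_add (ne_top_of_le_ne_top ENNReal.one_ne_top
      (pr_le_one J hJ x I hx hI f hf1 t)) (ENNReal.mul_ne_top ENNReal.ofReal_ne_top k2),
    ENNReal.toReal_add (ne_top_of_le_ne_top ENNReal.one_ne_top (hf1 x hx))
      (ENNReal.mul_ne_top ENNReal.ofReal_ne_top k4), ENNReal.toReal_mul, ENNReal.toReal_mul,
    ENNReal.toReal_ofReal hΛ.le] at h2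
  exact h2

/-- **Comparison.** Two starting points and two sequences of functions generated by the
uniformised jump chain. -/
theorem compare (x x' : X) (I : X → Prop) (hx : I x) (hx' : I x')
    (hI : ∀ y, I y → ∀ᵐ z ∂(J y), I z)
    (Λ : ℝ) (hΛ : 0 < Λ) (hq : ∀ y, I y → J y Set.univ ≤ ENNReal.ofReal Λ)
    (f f' : ℕ → X → ℝ≥0∞) (hf1 : ∀ k y, I y → f k y ≤ 1) (hf1' : ∀ k y, I y → f' k y ≤ 1)
    (hf : ∀ k y, I y → ENNReal.ofReal Λ * f (k + 1) y + J y Set.univ * f k y =
      ∫⁻ z, f k z ∂(J y) + ENNReal.ofReal Λ * f k y)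
    (hf' : ∀ k y, I y → ENNReal.ofReal Λ * f' (k + 1) y + J y Set.univ * f' k y =
      ∫⁻ z, f' k z ∂(J y) + ENNReal.ofReal Λ * f' k y)
    (hc : ∀ k, f k x ≤ f' k x') {t : ℝ} (ht : 0 ≤ t) :
    pr J hJ x t (f 0) ≤ pr J hJ x' t (f' 0) := by
  have hreg := reg_of_bdd J hJ x I hx hI Λ hΛ hq
  have hreg' := reg_of_bdd J hJ x' I hx' hI Λ hΛ hq
  have hle : ∀ k t, (prm J hJ x (f k) t).toReal ∈ Icc (0 : ℝ) 1 := by
    intro k t
    refine ⟨ENNReal.toReal_nonneg, ?_⟩
    by_cases h : 0 ≤ t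
    · rw [prm_eq J hJ x hreg _ h]
      exact ENNReal.toReal_le_of_le_ofReal zero_le_one (by
        rw [ENNReal.ofReal_one]; exact pr_le_one J hJ x I hx hI _ (hf1 k) t)
    · unfold prm; rw [if_neg h]; simp
  have hle' : ∀ k t, (prm J hJ x' (f' k) t).toReal ∈ Icc (0 : ℝ) 1 := by
    intro k t
    refine ⟨ENNReal.toReal_nonneg, ?_⟩
    by_cases h : 0 ≤ t
    · rw [prm_eq J hJ x' hreg' _ h]
      exact ENNReal.toReal_le_of_le_ofReal zero_le_one (by
        rw [ENNReal.ofReal_one]; exact pr_le_one J hJ x' I hx' hI _ (hf1' k) t)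
    · unfold prm; rw [if_neg h]; simp
  have hmeas : ∀ k, Measurable fun t => (prm J hJ x (f k) t).toReal := fun k =>
    (measurable_prm J hJ x (f k)).ennreal_toReal
  have hmeas' : ∀ k, Measurable fun t => (prm J hJ x' (f' k) t).toReal := fun k =>
    (measurable_prm J hJ x' (f' k)).ennreal_toReal
  have hint : ∀ k a b, IntervalIntegrable (fun t => (prm J hJ x (f k) t).toReal) volume a b := by
    intro k a b
    refine (intervalIntegrable_const (c := (1 : ℝ))).mono_fun (hmeas k).aestronglyMeasurable ?_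
    exact Filter.Eventually.of_forall fun u => by
      simpa [abs_of_nonneg (hle k u).1] using (hle k u).2
  have hint' : ∀ k a b, IntervalIntegrable (fun t => (prm J hJ x' (f' k) t).toReal)
      volume a b := by
    intro k a b
    refine (intervalIntegrable_const (c := (1 : ℝ))).mono_fun (hmeas' k).aestronglyMeasurable ?_
    exact Filter.Eventually.of_forall fun u => by
      simpa [abs_of_nonneg (hle' k u).1] using (hle' k u).2
  have h := real_compare Λ hΛ
    (fun k t => (prm J hJ x (f k) t).toReal - (prm J hJ x' (f' k) t).toReal)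
    (fun k => (hmeas k).sub (hmeas' k))
    (fun k t => by
      have h1 := hle k t
      have h2 := hle' k t
      rw [abs_le]
      constructor
      · linarith [h1.1, h2.2]
      · linarith [h1.2, h2.1])
    (fun k => (f k x).toReal - (f' k x').toReal)
    (fun k => by
      have h1 := ENNReal.toReal_mono (ne_top_of_le_ne_top ENNReal.one_ne_top (hf1' k x' hx')) (hc k)
      linarith)
    (fun k t ht => by
      have h1 := unif_real J hJ x I hx hI Λ hΛ hq (f k) (f (k + 1)) (hf1 k) (hf1 (k + 1)) (hf k) ht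
      have h2 := unif_real J hJ x' I hx' hI Λ hΛ hq (f' k) (f' (k + 1)) (hf1' k) (hf1' (k + 1))
        (hf' k) ht
      rw [intervalIntegral.integral_sub (hint _ _ _) (hint' _ _ _),
        intervalIntegral.integral_sub (hint _ _ _) (hint' _ _ _)]
      linarith) 0 t ht
  simp only [prm_eq J hJ x hreg _ ht, prm_eq J hJ x' hreg' _ ht] at h
  have h1 : (pr J hJ x t (f 0)).toReal ≤ (pr J hJ x' t (f' 0)).toReal := by linarith
  exact (ENNReal.toReal_le_toReal
    (ne_top_of_le_ne_top ENNReal.one_ne_top (pr_le_one J hJ x I hx hI _ (hf1 0) t))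
    (ne_top_of_le_ne_top ENNReal.one_ne_top (pr_le_one J hJ x' I hx' hI _ (hf1' 0) t))).1 h1

end Q288.Jump
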