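import Mathlib
import Pool.Agent.Q288.CTMC.Compare

/-!
# Comparison of two different jump processes; lower drift inequality
-/

set_option autoImplicit false
set_option linter.unusedSectionVars false

namespace Q288.Jump

open MeasureTheory ProbabilityTheory Pool.Agent.W845.CP Filter Topology Set
open scoped ENNReal

variable {X : Type} [MeasurableSpace X] [Countable X] [DiscreteMeasurableSpace X]
variable {X' : Type} [MeasurableSpace X'] [Countable X'] [DiscreteMeasurableSpace X']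

lemma prm_mem (J : X → Measure X) (hJ : GoodJ J) (x : X) (I : X → Prop) (hx : I x)
    (hI : ∀ y, I y → ∀ᵐ z ∂(J y), I z)
    (Λ : ℝ) (hΛ : 0 < Λ) (hq : ∀ y, I y → J y Set.univ ≤ ENNReal.ofReal Λ)
    (f : X → ℝ≥0∞) (hf1 : ∀ y, I y → f y ≤ 1) (t : ℝ) :
    (prm J hJ x f t).toReal ∈ Icc (0 : ℝ) 1 := by
  have hreg := reg_of_bdd J hJ x I hx hI Λ hΛ hq
  refine ⟨ENNReal.toReal_nonneg, ?_⟩
  by_cases h : 0 ≤ t
  · rw [prm_eq J hJ x hreg _ h]
    exact ENNReal.toReal_le_of_le_ofReal zero_le_one (by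
      rw [ENNReal.ofReal_one]; exact pr_le_one J hJ x I hx hI _ hf1 t)
  · unfold prm; rw [if_neg h]; simp

/-- **Comparison of two processes.** Two jump processes on possibly different state spaces, with
sequences of functions generated by the uniformised jump chains. -/
theorem compare2 (J : X → Measure X) (hJ : GoodJ J) (x : X) (I : X → Prop) (hx : I x)
    (hI : ∀ y, I y → ∀ᵐ z ∂(J y), I z)
    (J' : X' → Measure X') (hJ' : GoodJ J') (x' : X') (I' : X' → Prop) (hx' : I' x')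
    (hI' : ∀ y, I' y → ∀ᵐ z ∂(J' y), I' z)
    (Λ : ℝ) (hΛ : 0 < Λ) (hq : ∀ y, I y → J y Set.univ ≤ ENNReal.ofReal Λ)
    (hq' : ∀ y, I' y → J' y Set.univ ≤ ENNReal.ofReal Λ)
    (f : ℕ → X → ℝ≥0∞) (f' : ℕ → X' → ℝ≥0∞)
    (hf1 : ∀ k y, I y → f k y ≤ 1) (hf1' : ∀ k y, I' y → f' k y ≤ 1)
    (hf : ∀ k y, I y → ENNReal.ofReal Λ * f (k + 1) y + J y Set.univ * f k y =
      ∫⁻ z, f k z ∂(J y) + ENNReal.ofReal Λ * f k y)
    (hf' : ∀ k y, I' y → ENNReal.ofReal Λ * f' (k + 1) y + J' y Set.univ * f' k y =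
      ∫⁻ z, f' k z ∂(J' y) + ENNReal.ofReal Λ * f' k y)
    (hc : ∀ k, f k x ≤ f' k x') {t : ℝ} (ht : 0 ≤ t) :
    pr J hJ x t (f 0) ≤ pr J' hJ' x' t (f' 0) := by
  have hreg := reg_of_bdd J hJ x I hx hI Λ hΛ hq
  have hreg' := reg_of_bdd J' hJ' x' I' hx' hI' Λ hΛ hq'
  have hle : ∀ k t, (prm J hJ x (f k) t).toReal ∈ Icc (0 : ℝ) 1 := fun k t =>
    prm_mem J hJ x I hx hI Λ hΛ hq (f k) (hf1 k) t
  have hle' : ∀ k t, (prm J' hJ' x' (f' k) t).toReal ∈ Icc (0 : ℝ) 1 := fun k t =>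
    prm_mem J' hJ' x' I' hx' hI' Λ hΛ hq' (f' k) (hf1' k) t
  have hmeas : ∀ k, Measurable fun t => (prm J hJ x (f k) t).toReal := fun k =>
    (measurable_prm J hJ x (f k)).ennreal_toReal
  have hmeas' : ∀ k, Measurable fun t => (prm J' hJ' x' (f' k) t).toReal := fun k =>
    (measurable_prm J' hJ' x' (f' k)).ennreal_toReal
  have hint : ∀ k a b, IntervalIntegrable (fun t => (prm J hJ x (f k) t).toReal) volume a b := by
    intro k a b
    refine (intervalIntegrable_const (c := (1 : ℝ))).mono_fun (hmeas k).aestronglyMeasurable ?_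
    exact Filter.Eventually.of_forall fun u => by
      simpa [abs_of_nonneg (hle k u).1] using (hle k u).2
  have hint' : ∀ k a b, IntervalIntegrable (fun t => (prm J' hJ' x' (f' k) t).toReal)
      volume a b := by
    intro k a b
    refine (intervalIntegrable_const (c := (1 : ℝ))).mono_fun (hmeas' k).aestronglyMeasurable ?_
    exact Filter.Eventually.of_forall fun u => by
      simpa [abs_of_nonneg (hle' k u).1] using (hle' k u).2
  have h := real_compare Λ hΛ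
    (fun k t => (prm J hJ x (f k) t).toReal - (prm J' hJ' x' (f' k) t).toReal)
    (fun k => (hmeas k).sub (hmeas' k))
    (fun k t => by
      have h1 := hle k t
      have h2 := hle' k t
      rw [abs_le]
      constructor
      · linarith [h1.1, h2.2]
      · linarith [h1.2, h2.1])
    (fun k => (f k x).toReal - (f' k x').toReal)
    (fun k => by
      have h1 := ENNReal.toReal_mono (ne_top_of_le_ne_top ENNReal.one_ne_top (hf1' k x' hx')) (hc k)
      linarith)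
    (fun k t ht => by
      have h1 := unif_real J hJ x I hx hI Λ hΛ hq (f k) (f (k + 1)) (hf1 k) (hf1 (k + 1)) (hf k) ht
      have h2 := unif_real J' hJ' x' I' hx' hI' Λ hΛ hq' (f' k) (f' (k + 1)) (hf1' k)
        (hf1' (k + 1)) (hf' k) ht
      rw [intervalIntegral.integral_sub (hint _ _ _) (hint' _ _ _),
        intervalIntegral.integral_sub (hint _ _ _) (hint' _ _ _)]
      linarith) 0 t ht
  simp only [prm_eq J hJ x hreg _ ht, prm_eq J' hJ' x' hreg' _ ht] at h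
  have h1 : (pr J hJ x t (f 0)).toReal ≤ (pr J' hJ' x' t (f' 0)).toReal := by linarith
  exact (ENNReal.toReal_le_toReal
    (ne_top_of_le_ne_top ENNReal.one_ne_top (pr_le_one J hJ x I hx hI _ (hf1 0) t))
    (ne_top_of_le_ne_top ENNReal.one_ne_top (pr_le_one J' hJ' x' I' hx' hI' _ (hf1' 0) t))).1 h1

/-- **Upper drift inequality.** -/
theorem drift_le (J : X → Measure X) (hJ : GoodJ J) (x : X) (I : X → Prop) (hx : I x)
    (hI : ∀ y, I y → ∀ᵐ z ∂(J y), I z)
    (Λ : ℝ) (hΛ : 0 < Λ) (hq : ∀ y, I y → J y Set.univ ≤ ENNReal.ofReal Λ)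
    (f a b : X → ℝ≥0∞) (C : ℝ≥0∞) (hC : C ≠ ⊤) (hfC : ∀ y, I y → f y ≤ C)
    (hf : ∀ y, I y → ∫⁻ z, f z ∂(J y) + a y ≤ J y Set.univ * f y + b y) {t : ℝ} (ht : 0 ≤ t) :
    pr J hJ x t f + ∫⁻ u in Ioc 0 t, pr J hJ x u a ≤ f x + ∫⁻ u in Ioc 0 t, pr J hJ x u b := by
  have hreg := reg_of_bdd J hJ x I hx hI Λ hΛ hq
  have h1 := forward J hJ x hreg ht f
  set B := ∫⁻ u in Ioc 0 t, pr J hJ x u (fun y => J y Set.univ * f y) with hB
  set D := ∫⁻ u in Ioc 0 t, pr J hJ x u (fun y => ∫⁻ z, f z ∂(J y)) with hD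
  have h2 : D + ∫⁻ u in Ioc 0 t, pr J hJ x u a ≤ B + ∫⁻ u in Ioc 0 t, pr J hJ x u b := by
    rw [hB, hD, ← lintegral_add_left' (aemeas_pr J hJ x hreg _ t),
      ← lintegral_add_left' (aemeas_pr J hJ x hreg _ t)]
    refine lintegral_mono fun u => ?_
    rw [← pr_add, ← pr_add]
    exact pr_mono J hJ x I hx hI u _ _ hf
  have hBfin : B ≠ ⊤ := by
    have h3 : B ≤ ∫⁻ u in Ioc 0 t, ENNReal.ofReal Λ * C := by
      refine lintegral_mono fun u => ?_
      calc pr J hJ x u (fun y => J y Set.univ * f y) ≤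
            pr J hJ x u (fun _ => ENNReal.ofReal Λ * C) := by
            refine pr_mono J hJ x I hx hI u _ _ fun y hy => ?_
            exact mul_le_mul' (hq y hy) (hfC y hy)
        _ = _ := pr_const _ _ x u _
    refine ne_top_of_le_ne_top ?_ h3
    rw [setLIntegral_const]
    exact ENNReal.mul_ne_top (ENNReal.mul_ne_top ENNReal.ofReal_ne_top hC) (by simp)
  have h4 : B + (pr J hJ x t f + ∫⁻ u in Ioc 0 t, pr J hJ x u a) ≤
      B + (f x + ∫⁻ u in Ioc 0 t, pr J hJ x u b) := by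
    calc _ = (pr J hJ x t f + B) + ∫⁻ u in Ioc 0 t, pr J hJ x u a := by ring
      _ = f x + (D + ∫⁻ u in Ioc 0 t, pr J hJ x u a) := by rw [h1]; ring
      _ ≤ f x + (B + ∫⁻ u in Ioc 0 t, pr J hJ x u b) := by gcongr
      _ = _ := by ring
  exact (ENNReal.add_le_add_iff_left hBfin).1 h4

/-- **Lower drift inequality.** -/
theorem drift_ge (J : X → Measure X) (hJ : GoodJ J) (x : X) (I : X → Prop) (hx : I x)
    (hI : ∀ y, I y → ∀ᵐ z ∂(J y), I z)
    (Λ : ℝ) (hΛ : 0 < Λ) (hq : ∀ y, I y → J y Set.univ ≤ ENNReal.ofReal Λ)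
    (f a b : X → ℝ≥0∞) (C : ℝ≥0∞) (hC : C ≠ ⊤) (hfC : ∀ y, I y → f y ≤ C)
    (hf : ∀ y, I y → J y Set.univ * f y + a y ≤ ∫⁻ z, f z ∂(J y) + b y) {t : ℝ} (ht : 0 ≤ t) :
    f x + ∫⁻ u in Ioc 0 t, pr J hJ x u a ≤ pr J hJ x t f + ∫⁻ u in Ioc 0 t, pr J hJ x u b := by
  have hreg := reg_of_bdd J hJ x I hx hI Λ hΛ hq
  have h1 := forward J hJ x hreg ht f
  set B := ∫⁻ u in Ioc 0 t, pr J hJ x u (fun y => J y Set.univ * f y) with hB
  set D := ∫⁻ u in Ioc 0 t, pr J hJ x u (fun y => ∫⁻ z, f z ∂(J y)) with hD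
  have h2 : B + ∫⁻ u in Ioc 0 t, pr J hJ x u a ≤ D + ∫⁻ u in Ioc 0 t, pr J hJ x u b := by
    rw [hB, hD, ← lintegral_add_left' (aemeas_pr J hJ x hreg _ t),
      ← lintegral_add_left' (aemeas_pr J hJ x hreg _ t)]
    refine lintegral_mono fun u => ?_
    rw [← pr_add, ← pr_add]
    exact pr_mono J hJ x I hx hI u _ _ hf
  have hBfin : B ≠ ⊤ := by
    have h3 : B ≤ ∫⁻ u in Ioc 0 t, ENNReal.ofReal Λ * C := by
      refine lintegral_mono fun u => ?_
      calc pr J hJ x u (fun y => J y Set.univ * f y) ≤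
            pr J hJ x u (fun _ => ENNReal.ofReal Λ * C) := by
            refine pr_mono J hJ x I hx hI u _ _ fun y hy => ?_
            exact mul_le_mul' (hq y hy) (hfC y hy)
        _ = _ := pr_const _ _ x u _
    refine ne_top_of_le_ne_top ?_ h3
    rw [setLIntegral_const]
    exact ENNReal.mul_ne_top (ENNReal.mul_ne_top ENNReal.ofReal_ne_top hC) (by simp)
  have h4 : B + (f x + ∫⁻ u in Ioc 0 t, pr J hJ x u a) ≤
      B + (pr J hJ x t f + ∫⁻ u in Ioc 0 t, pr J hJ x u b) := by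
    calc _ = f x + (B + ∫⁻ u in Ioc 0 t, pr J hJ x u a) := by ring
      _ ≤ f x + (D + ∫⁻ u in Ioc 0 t, pr J hJ x u b) := by gcongr
      _ = (f x + D) + ∫⁻ u in Ioc 0 t, pr J hJ x u b := by ring
      _ = (pr J hJ x t f + B) + ∫⁻ u in Ioc 0 t, pr J hJ x u b := by rw [h1]
      _ = _ := by ring
  exact (ENNReal.add_le_add_iff_left hBfin).1 h4

end Q288.Jump
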